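import Mathlib

/-!
# Definitions for `V_- ⊆ St ⊗ St`, `G = SL₂(K)`

All definitions follow the problem file literally.  The induced module `kG ⊗_{kB} k_tr` is written
as the quotient of `kG` (finitely supported functions `G →₀ k`) by the span of all `g b - g` with
`g ∈ G`, `b ∈ B`.
-/

set_option autoImplicit false

open scoped TensorProduct MatrixGroups

namespace Pool.Agent.Work.MP_79d1ba_al

variable (k K : Type*) [Field k] [Field K]

/-- `ε(x)`: the matrix with rows `(1, x)` and `(0, 1)`. -/
def eps (x : K) : SL(2, K) := ⟨!![1, x; 0, 1], by simp [Matrix.det_fin_two]⟩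

/-- the matrix `s` with rows `(0, 1)` and `(-1, 0)`. -/
def sMat : SL(2, K) := ⟨!![0, 1; -1, 0], by simp [Matrix.det_fin_two]⟩

/-- The group algebra `kG` as a `k`-space: finitely supported functions on `G = SL₂(K)`. -/
def GrpAlg : Type _ := SL(2, K) →₀ k

noncomputable instance : AddCommGroup (GrpAlg k K) := Finsupp.instAddCommGroup

noncomputable instance : Module k (GrpAlg k K) := Finsupp.module _ _

/-- The element `g` of `kG`. -/
noncomputable def ofG (g : SL(2, K)) : GrpAlg k K := Finsupp.single g 1

/-- Left multiplication by `g` on `kG`. -/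
noncomputable def lmul (g : SL(2, K)) : GrpAlg k K →ₗ[k] GrpAlg k K :=
  Finsupp.lmapDomain k k (fun h => g * h)

/-- The relations `g b = g` in `kG`, where `g ∈ G` and `b` is upper triangular. -/
noncomputable def relB : Submodule k (GrpAlg k K) :=
  Submodule.span k {v | ∃ g b : SL(2, K), b.val 1 0 = 0 ∧ v = ofG k K (g * b) - ofG k K g}

/-- The induced module `𝕄(tr) = kG ⊗_{kB} k_tr`, i.e. `kG` modulo the relations `g b = g`. -/
def IndTr : Type _ := GrpAlg k K ⧸ relB k K

noncomputable instance : AddCommGroup (IndTr k K) := Submodule.Quotient.addCommGroup (relB k K)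

noncomputable instance : Module k (IndTr k K) := Submodule.Quotient.module (relB k K)

lemma lmul_ofG (g h : SL(2, K)) : lmul k K g (ofG k K h) = ofG k K (g * h) := by
  change Finsupp.mapDomain (fun h => g * h) (Finsupp.single h (1 : k)) = Finsupp.single (g * h) 1
  rw [Finsupp.mapDomain_single]

lemma relB_le (g : SL(2, K)) : relB k K ≤ (relB k K).comap (lmul k K g) := by
  rw [relB, Submodule.span_le]
  rintro _ ⟨h, b, hb, rfl⟩
  refine Submodule.subset_span ⟨g * h, b, hb, ?_⟩
  rw [map_sub, lmul_ofG, lmul_ofG, mul_assoc]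

/-- The action of `g ∈ G` on `𝕄(tr)`, induced by left multiplication on `kG`. -/
noncomputable def actTr (g : SL(2, K)) : IndTr k K →ₗ[k] IndTr k K :=
  (relB k K).mapQ (relB k K) (lmul k K g) (relB_le k K g)

/-- The element `1_tr = 1 ⊗ 1` of `𝕄(tr)`. -/
noncomputable def oneTr : IndTr k K := (relB k K).mkQ (ofG k K 1)

/-- `η = (1 - s) 1_tr`. -/
noncomputable def eta : IndTr k K := oneTr k K - actTr k K (sMat K) (oneTr k K)

/-- The Steinberg module `St = kG η`, as a subspace of `𝕄(tr)`: the `k`-span of all `g η`. -/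
noncomputable def StSub : Submodule k (IndTr k K) :=
  Submodule.span k (Set.range fun g : SL(2, K) => actTr k K g (eta k K))

/-- The Steinberg module `St` as a `k`-space. -/
def St : Type _ := StSub k K

noncomputable instance : AddCommGroup (St k K) := (StSub k K).addCommGroup

noncomputable instance : Module k (St k K) := (StSub k K).module

lemma lmul_mul (g h : SL(2, K)) (f : GrpAlg k K) :
    lmul k K (g * h) f = lmul k K g (lmul k K h f) := by
  have key : ∀ f : SL(2, K) →₀ k, Finsupp.mapDomain (fun x => g * h * x) f =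
      Finsupp.mapDomain (fun x => g * x) (Finsupp.mapDomain (fun x => h * x) f) := by
    intro f
    rw [← Finsupp.mapDomain_comp]
    congr 1
    funext x
    exact mul_assoc _ _ _
  exact key f

lemma actTr_mul (g h : SL(2, K)) (m : IndTr k K) :
    actTr k K (g * h) m = actTr k K g (actTr k K h m) := by
  obtain ⟨f, rfl⟩ := (relB k K).mkQ_surjective m
  exact congrArg (relB k K).mkQ (lmul_mul k K g h f)

lemma actTr_mem (g : SL(2, K)) : ∀ v ∈ StSub k K, actTr k K g v ∈ StSub k K := by
  intro v hv
  rw [StSub] at hv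
  induction hv using Submodule.span_induction with
  | mem x hx =>
    obtain ⟨h, rfl⟩ := hx
    exact Submodule.subset_span ⟨g * h, actTr_mul k K g h _⟩
  | zero => rw [map_zero]; exact Submodule.zero_mem _
  | add x y _ _ hx hy => rw [map_add]; exact Submodule.add_mem _ hx hy
  | smul c x _ hx => rw [map_smul]; exact Submodule.smul_mem _ _ hx

/-- The action of `g ∈ G` on `St`. -/
noncomputable def actSt (g : SL(2, K)) : St k K →ₗ[k] St k K :=
  LinearMap.restrict (actTr k K g) (actTr_mem k K g)

/-- `e_x = ε(x) η`, an element of `St`. -/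
noncomputable def eSt (x : K) : St k K :=
  ⟨actTr k K (eps K x) (eta k K), Submodule.subset_span ⟨eps K x, rfl⟩⟩

/-- The space `St ⊗ St` (tensor product over `k`). -/
def StSt : Type _ := St k K ⊗[k] St k K

noncomputable instance : AddCommGroup (StSt k K) := TensorProduct.addCommGroup

noncomputable instance : Module k (StSt k K) := TensorProduct.leftModule

/-- The diagonal action of `g ∈ G` on `St ⊗ St`. -/
noncomputable def actStSt (g : SL(2, K)) : StSt k K →ₗ[k] StSt k K :=
  TensorProduct.map (actSt k K g) (actSt k K g)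

/-- `ρ_{x,y} = ½ (e_x ⊗ e_y - e_y ⊗ e_x)`. -/
noncomputable def rho (x y : K) : StSt k K :=
  (1 / 2 : k) • (eSt k K x ⊗ₜ[k] eSt k K y - eSt k K y ⊗ₜ[k] eSt k K x)

/-- `V_-`: the `k`-span of all `ρ_{x,y}` with `x ≠ y`. -/
noncomputable def Vminus : Submodule k (StSt k K) :=
  Submodule.span k {v | ∃ x y : K, x ≠ y ∧ v = rho k K x y}

end Pool.Agent.Work.MP_79d1ba_al
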