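import Mathlib

/-!
Finite-level estimate for Moebius-invariant families of vectors indexed by ordered pairs of
points on the projective line over a finite field.
-/

set_option autoImplicit false

open scoped InnerProductSpace Matrix
open OnePoint Matrix

namespace Pool.Agent.Work.MP_79d1ba_al

section Transitivity

variable {F : Type*} [Field F] [DecidableEq F]

/-- the Moebius transformation moving `z` to `∞` -/
lemma exists_smul_infty (z : OnePoint F) : ∃ g : GL (Fin 2) F, g • z = ∞ := by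
  cases z with
  | infty => exact ⟨1, by simp⟩
  | coe z =>
    refine ⟨Matrix.GeneralLinearGroup.mkOfDetNeZero !![0, 1; 1, -z] (by simp [det_fin_two]), ?_⟩
    rw [OnePoint.smul_some_eq_ite]
    simp [Matrix.GeneralLinearGroup.mkOfDetNeZero]

lemma exists_smul_zero_infty (x z : OnePoint F) (hxz : x ≠ z) :
    ∃ g : GL (Fin 2) F, g • x = ((0 : F) : OnePoint F) ∧ g • z = ∞ := by
  obtain ⟨g, hg⟩ := exists_smul_infty z
  have hx : g • x ≠ ∞ := by
    intro h
    exact hxz (smul_left_cancel g (h.trans hg.symm))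
  obtain ⟨u, hu⟩ := OnePoint.ne_infty_iff_exists.mp hx
  let h : GL (Fin 2) F := Matrix.GeneralLinearGroup.mkOfDetNeZero !![1, -u; 0, 1] (by simp [det_fin_two])
  refine ⟨h * g, ?_, ?_⟩
  · rw [mul_smul, ← hu, OnePoint.smul_some_eq_ite]
    simp [h, Matrix.GeneralLinearGroup.mkOfDetNeZero]
  · rw [mul_smul, hg, OnePoint.smul_infty_eq_ite]
    simp [h, Matrix.GeneralLinearGroup.mkOfDetNeZero]

lemma exists_smul_three (x y z : OnePoint F) (hxy : x ≠ y) (hxz : x ≠ z) (hyz : y ≠ z) :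
    ∃ g : GL (Fin 2) F, g • x = ((0 : F) : OnePoint F) ∧ g • y = ((1 : F) : OnePoint F) ∧
      g • z = ∞ := by
  obtain ⟨g, hg0, hg⟩ := exists_smul_zero_infty x z hxz
  have hy : g • y ≠ ∞ := by
    intro h
    exact hyz (smul_left_cancel g (h.trans hg.symm))
  have hy0 : g • y ≠ ((0 : F) : OnePoint F) := by
    intro h
    exact hxy (smul_left_cancel g (hg0.trans h.symm))
  obtain ⟨u, hu⟩ := OnePoint.ne_infty_iff_exists.mp hy
  have hu0 : u ≠ 0 := by
    rintro rfl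
    exact hy0 hu.symm
  let h : GL (Fin 2) F := Matrix.GeneralLinearGroup.mkOfDetNeZero !![1, 0; 0, u] (by simp [det_fin_two, hu0])
  refine ⟨h * g, ?_, ?_, ?_⟩
  · rw [mul_smul, hg0, OnePoint.smul_some_eq_ite]
    simp [h, Matrix.GeneralLinearGroup.mkOfDetNeZero, hu0]
  · rw [mul_smul, ← hu, OnePoint.smul_some_eq_ite]
    simp [h, Matrix.GeneralLinearGroup.mkOfDetNeZero, hu0]
  · rw [mul_smul, hg, OnePoint.smul_infty_eq_ite]
    simp [h, Matrix.GeneralLinearGroup.mkOfDetNeZero]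

end Transitivity

section Estimate

variable {F : Type*} [Field F] [Fintype F] [DecidableEq F]
variable {H : Type*} [NormedAddCommGroup H] [InnerProductSpace ℂ H]

/-- A family of vectors indexed by ordered pairs of points of the projective line, antisymmetric,
with Moebius-invariant Gram kernel, and with vanishing column sums. -/
structure Good (a : OnePoint F → OnePoint F → H) : Prop where
  anti : ∀ x y, a x y = - a y x
  inv : ∀ (g : GL (Fin 2) F) (x y z w : OnePoint F),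
    ⟪a (g • x) (g • y), a (g • z) (g • w)⟫_ℂ = ⟪a x y, a z w⟫_ℂ
  sum : ∀ y, a ∞ y + ∑ u : F, a (u : OnePoint F) y = 0

variable {a : OnePoint F → OnePoint F → H}

/-- the square norm -/
noncomputable def c0 (a : OnePoint F → OnePoint F → H) : ℝ := ‖a ((0 : F) : OnePoint F) ∞‖ ^ 2

lemma c0_nonneg : 0 ≤ c0 a := sq_nonneg _

lemma Good.self (ha : Good a) (x : OnePoint F) : a x x = 0 := by
  have := ha.anti x x
  have h2 : (2 : ℂ) • a x x = 0 := by
    rw [two_smul]; nth_rewrite 1 [this]; simp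
  simpa using h2

lemma Good.normSq (ha : Good a) {x y : OnePoint F} (hxy : x ≠ y) :
    ‖a x y‖ ^ 2 = c0 a := by
  obtain ⟨g, h0, h1⟩ := exists_smul_zero_infty x y hxy
  have := ha.inv g x y x y
  rw [h0, h1, inner_self_eq_norm_sq_to_K, inner_self_eq_norm_sq_to_K] at this
  rw [c0]
  exact_mod_cast this.symm

lemma Good.inner_self (ha : Good a) {x y : OnePoint F} (hxy : x ≠ y) :
    ⟪a x y, a x y⟫_ℂ = (c0 a : ℂ) := by
  rw [inner_self_eq_norm_sq_to_K, ← ha.normSq hxy]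
  push_cast
  rfl

lemma Good.norm_inner_le (ha : Good a) (x y z w : OnePoint F) :
    ‖⟪a x y, a z w⟫_ℂ‖ ≤ c0 a := by
  by_cases hxy : x = y
  · subst hxy
    rw [ha.self]
    simp [c0_nonneg]
  by_cases hzw : z = w
  · subst hzw
    rw [ha.self]
    simp [c0_nonneg]
  refine (norm_inner_le_norm _ _).trans ?_
  have h1 := ha.normSq hxy
  have h2 := ha.normSq hzw
  have h3 : ‖a x y‖ = ‖a z w‖ := by
    have : ‖a x y‖ ^ 2 = ‖a z w‖ ^ 2 := by rw [h1, h2]
    exact (pow_left_inj₀ (norm_nonneg _) (norm_nonneg _) two_ne_zero).mp this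
  rw [h3, ← sq, h2]

/-- three distinct points: the shared-point inner product is constant -/
lemma Good.shared_eq (ha : Good a) {x y z : OnePoint F} (hxy : x ≠ y) (hxz : x ≠ z)
    (hyz : y ≠ z) :
    ⟪a x z, a y z⟫_ℂ = ⟪a ((0 : F) : OnePoint F) ∞, a ((1 : F) : OnePoint F) ∞⟫_ℂ := by
  obtain ⟨g, h0, h1, h2⟩ := exists_smul_three x y z hxy hxz hyz
  have := ha.inv g x z y z
  rw [h0, h1, h2] at this
  exact this.symm

lemma Good.shared_val (ha : Good a) :
    ((Fintype.card F : ℂ) - 1) *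
      ⟪a ((0 : F) : OnePoint F) ∞, a ((1 : F) : OnePoint F) ∞⟫_ℂ = - (c0 a : ℂ) := by
  have h := ha.sum ∞
  rw [ha.self, zero_add] at h
  have h2 : ⟪a ((0 : F) : OnePoint F) ∞, ∑ u : F, a (u : OnePoint F) ∞⟫_ℂ = 0 := by
    rw [h, inner_zero_right]
  rw [inner_sum, ← Finset.add_sum_erase _ _ (Finset.mem_univ (0 : F)),
    ha.inner_self (OnePoint.coe_ne_infty _)] at h2
  have h3 : ∑ u ∈ Finset.univ.erase (0 : F), ⟪a ((0 : F) : OnePoint F) ∞, a (u : OnePoint F) ∞⟫_ℂ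
      = ((Fintype.card F : ℂ) - 1) *
      ⟪a ((0 : F) : OnePoint F) ∞, a ((1 : F) : OnePoint F) ∞⟫_ℂ := by
    rw [Finset.sum_congr rfl (g := fun _ => ⟪a ((0 : F) : OnePoint F) ∞, a ((1 : F) : OnePoint F) ∞⟫_ℂ)]
    · rw [Finset.sum_const, Finset.card_erase_of_mem (Finset.mem_univ _), Finset.card_univ,
        nsmul_eq_mul, Nat.cast_sub Fintype.card_pos]
      simp
    · intro u hu
      apply ha.shared_eq
      · intro h
        apply (Finset.mem_erase.mp hu).1
        exact (OnePoint.coe_eq_coe.mp h).symm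
      · exact OnePoint.coe_ne_infty _
      · exact OnePoint.coe_ne_infty _
  rw [h3] at h2
  linear_combination h2

/-- the value of `c1` as a real number -/
noncomputable def c1 (a : OnePoint F → OnePoint F → H) : ℝ := - (c0 a) / ((Fintype.card F : ℝ) - 1)

lemma card_sub_one_pos : (0 : ℝ) < (Fintype.card F : ℝ) - 1 := by
  have : 1 < Fintype.card F := Fintype.one_lt_card
  have : (1 : ℝ) < Fintype.card F := by exact_mod_cast this
  linarith

lemma one_le_card_sub_one : (1 : ℝ) ≤ (Fintype.card F : ℝ) - 1 := by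
  have : 2 ≤ Fintype.card F := Fintype.one_lt_card
  have : (2 : ℝ) ≤ Fintype.card F := by exact_mod_cast this
  linarith

lemma Good.shared (ha : Good a) {x y z : OnePoint F} (hxy : x ≠ y) (hxz : x ≠ z)
    (hyz : y ≠ z) : ⟪a x z, a y z⟫_ℂ = (c1 a : ℂ) := by
  rw [ha.shared_eq hxy hxz hyz]
  have h := ha.shared_val
  have hne : ((Fintype.card F : ℂ) - 1) ≠ 0 := by
    have := card_sub_one_pos (F := F)
    intro h0
    have : ((Fintype.card F : ℝ) - 1) = 0 := by
      have h1 : (((Fintype.card F : ℝ) - 1 : ℝ) : ℂ) = 0 := by push_cast; exact h0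
      exact_mod_cast h1
    linarith
  rw [c1]
  push_cast
  field_simp
  linear_combination h

lemma c1_nonpos : c1 a ≤ 0 := by
  rw [c1]
  apply div_nonpos_of_nonpos_of_nonneg
  · have := c0_nonneg (a := a); linarith
  · exact card_sub_one_pos.le

lemma c0_sub_c1_le : c0 a - c1 a ≤ 2 * c0 a := by
  have h1 := one_le_card_sub_one (F := F)
  have h2 : - c1 a ≤ c0 a := by
    rw [c1, neg_div, neg_neg]
    exact div_le_self c0_nonneg h1
  linarith

/-- Gram expansion for linear combinations of the vectors `a u ∞`. -/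
lemma Good.norm_comb (ha : Good a) (c : F → ℂ) :
    ‖∑ u : F, c u • a (u : OnePoint F) ∞‖ ^ 2 ≤ (c0 a - c1 a) * ∑ u : F, ‖c u‖ ^ 2 := by
  have h1 : ∀ u v : F, ⟪c u • a (u : OnePoint F) ∞, c v • a (v : OnePoint F) ∞⟫_ℂ
      = (c1 a : ℂ) * ((starRingEnd ℂ) (c u) * c v) +
        if u = v then ((c0 a - c1 a : ℝ) : ℂ) * ((starRingEnd ℂ) (c u) * c v) else 0 := by
    intro u v
    rw [inner_smul_left, inner_smul_right]
    split_ifs with huv
    · subst huv
      rw [ha.inner_self (OnePoint.coe_ne_infty _)]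
      push_cast
      ring
    · rw [ha.shared (fun h => huv (OnePoint.coe_eq_coe.mp h)) (OnePoint.coe_ne_infty _)
        (OnePoint.coe_ne_infty _)]
      ring
  have h2 : ((‖∑ u : F, c u • a (u : OnePoint F) ∞‖ ^ 2 : ℝ) : ℂ)
      = (((c1 a) * ‖∑ u : F, c u‖ ^ 2 + (c0 a - c1 a) * ∑ u : F, ‖c u‖ ^ 2 : ℝ) : ℂ) := by
    have h3 : ⟪∑ u : F, c u • a (u : OnePoint F) ∞, ∑ v : F, c v • a (v : OnePoint F) ∞⟫_ℂ
        = ((‖∑ u : F, c u • a (u : OnePoint F) ∞‖ ^ 2 : ℝ) : ℂ) := by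
      rw [inner_self_eq_norm_sq_to_K]
      push_cast
      rfl
    rw [← h3, sum_inner]
    simp_rw [inner_sum, h1, Finset.sum_add_distrib, Finset.sum_ite_eq, Finset.mem_univ, if_true,
      ← Finset.mul_sum]
    have h4 : ∑ u : F, (starRingEnd ℂ) (c u) * ∑ v : F, c v = ((‖∑ u : F, c u‖ ^ 2 : ℝ) : ℂ) := by
      rw [← Finset.sum_mul, ← map_sum, Complex.conj_mul']
      push_cast
      rfl
    have h5 : ∑ u : F, (starRingEnd ℂ) (c u) * c u = ((∑ u : F, ‖c u‖ ^ 2 : ℝ) : ℂ) := by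
      push_cast
      apply Finset.sum_congr rfl
      intro u _
      rw [Complex.conj_mul']
    rw [h4, h5]
    push_cast
    ring
  have h3 : ‖∑ u : F, c u • a (u : OnePoint F) ∞‖ ^ 2
      = (c1 a) * ‖∑ u : F, c u‖ ^ 2 + (c0 a - c1 a) * ∑ u : F, ‖c u‖ ^ 2 := by
    exact_mod_cast h2
  rw [h3]
  have h4 : (c1 a) * ‖∑ u : F, c u‖ ^ 2 ≤ 0 :=
    mul_nonpos_of_nonpos_of_nonneg c1_nonpos (sq_nonneg _)
  linarith

/-- Bessel-type inequality. -/
lemma Good.bessel (ha : Good a) (x y : OnePoint F) :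
    ∑ u : F, ‖⟪a x y, a (u : OnePoint F) ∞⟫_ℂ‖ ^ 2 ≤ 2 * (c0 a) ^ 2 := by
  set b : F → ℂ := fun u => ⟪a x y, a (u : OnePoint F) ∞⟫_ℂ with hb
  set z : H := ∑ u : F, ((starRingEnd ℂ) (b u)) • a (u : OnePoint F) ∞ with hz
  set β : ℝ := ∑ u : F, ‖b u‖ ^ 2 with hβ
  have hβ0 : 0 ≤ β := Finset.sum_nonneg fun _ _ => sq_nonneg _
  have h1 : ⟪a x y, z⟫_ℂ = (β : ℂ) := by
    rw [hz, inner_sum, hβ]
    push_cast
    apply Finset.sum_congr rfl
    intro u _
    rw [inner_smul_right, Complex.conj_mul']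
  have h2 : ‖z‖ ^ 2 ≤ (c0 a - c1 a) * β := by
    have := ha.norm_comb (fun u => (starRingEnd ℂ) (b u))
    simpa [hz, hβ] using this
  have h3 : ‖a x y‖ ^ 2 ≤ c0 a := by
    by_cases hxy : x = y
    · subst hxy
      rw [ha.self]
      simp [c0_nonneg]
    · exact (ha.normSq hxy).le
  have h4 : β ≤ ‖a x y‖ * ‖z‖ := by
    have := norm_inner_le_norm (𝕜 := ℂ) (a x y) z
    rw [h1] at this
    simpa [abs_of_nonneg hβ0] using this
  have h5 : β ^ 2 ≤ c0 a * ((c0 a - c1 a) * β) := by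
    calc β ^ 2 ≤ (‖a x y‖ * ‖z‖) ^ 2 := by gcongr
      _ = ‖a x y‖ ^ 2 * ‖z‖ ^ 2 := by ring
      _ ≤ c0 a * ((c0 a - c1 a) * β) := by
        apply mul_le_mul h3 h2 (sq_nonneg _) c0_nonneg
  have h6 := c0_sub_c1_le (a := a)
  have h7 := c0_nonneg (a := a)
  change β ≤ 2 * c0 a ^ 2
  by_contra hcon
  push Not at hcon
  have hβpos : 0 < β := lt_of_le_of_lt (by positivity) hcon
  have h8 : β ≤ c0 a * (c0 a - c1 a) := by
    have : β * β ≤ (c0 a * (c0 a - c1 a)) * β := by nlinarith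
    exact le_of_mul_le_mul_right this hβpos
  have h9 : c0 a * (c0 a - c1 a) ≤ c0 a * (2 * c0 a) := by gcongr
  nlinarith

/-- the diagonal matrix `diag(t,1)` -/
def diagMat (t : Fˣ) : GL (Fin 2) F :=
  Matrix.GeneralLinearGroup.mkOfDetNeZero !![(t : F), 0; 0, 1] (by simp [det_fin_two])

omit [Fintype F] in
lemma diagMat_smul_coe (t : Fˣ) (x : F) :
    diagMat t • (x : OnePoint F) = (((t : F) * x : F) : OnePoint F) := by
  rw [OnePoint.smul_some_eq_ite]
  simp [diagMat, Matrix.GeneralLinearGroup.mkOfDetNeZero]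

omit [Fintype F] in
lemma diagMat_smul_infty (t : Fˣ) : diagMat t • (∞ : OnePoint F) = ∞ := by
  rw [OnePoint.smul_infty_eq_ite]
  simp [diagMat, Matrix.GeneralLinearGroup.mkOfDetNeZero]

/-- averaging over the torus -/
lemma Good.torus_avg (ha : Good a) (l : F) :
    ((Fintype.card F : ℝ) - 1) *
      ‖⟪a ((1 : F) : OnePoint F) (l : OnePoint F), a ((0 : F) : OnePoint F) ∞⟫_ℂ‖ ^ 2 ≤
    c0 a * ∑ s : Fˣ, ‖⟪a ((1 : F) : OnePoint F) (l : OnePoint F),
      a ((s : F) : OnePoint F) (((s : F) * l : F) : OnePoint F)⟫_ℂ‖ := by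
  set b : ℂ := ⟪a ((1 : F) : OnePoint F) (l : OnePoint F), a ((0 : F) : OnePoint F) ∞⟫_ℂ with hb
  set f : Fˣ → ℂ := fun s => ⟪a ((1 : F) : OnePoint F) (l : OnePoint F),
      a ((s : F) : OnePoint F) (((s : F) * l : F) : OnePoint F)⟫_ℂ with hf
  set z : H := ∑ t : Fˣ, a ((t : F) : OnePoint F) (((t : F) * l : F) : OnePoint F) with hz
  have hcard : (Fintype.card Fˣ : ℂ) = (Fintype.card F : ℂ) - 1 := by
    rw [Fintype.card_units, Nat.cast_sub Fintype.card_pos]
    simp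
  have hcardR : (Fintype.card Fˣ : ℝ) = (Fintype.card F : ℝ) - 1 := by
    rw [Fintype.card_units, Nat.cast_sub Fintype.card_pos]
    simp
  have h1 : ⟪z, a ((0 : F) : OnePoint F) ∞⟫_ℂ = (Fintype.card Fˣ : ℂ) * b := by
    rw [hz, sum_inner, Finset.sum_congr rfl (g := fun _ => b)]
    · rw [Finset.sum_const, Finset.card_univ, nsmul_eq_mul]
    · intro t _
      have := ha.inv (diagMat t) ((1 : F) : OnePoint F) (l : OnePoint F) ((0 : F) : OnePoint F) ∞
      rw [diagMat_smul_coe, diagMat_smul_coe, diagMat_smul_coe, diagMat_smul_infty] at this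
      simpa using this
  have h2 : ⟪z, z⟫_ℂ = (Fintype.card Fˣ : ℂ) * ∑ s : Fˣ, f s := by
    rw [hz, sum_inner]
    rw [Finset.sum_congr rfl (g := fun _ => ∑ s : Fˣ, f s)]
    · rw [Finset.sum_const, Finset.card_univ, nsmul_eq_mul]
    · intro t _
      rw [inner_sum]
      rw [← Equiv.sum_comp (Equiv.mulLeft t)]
      apply Finset.sum_congr rfl
      intro s _
      have := ha.inv (diagMat t) ((1 : F) : OnePoint F) (l : OnePoint F)
        ((s : F) : OnePoint F) (((s : F) * l : F) : OnePoint F)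
      rw [diagMat_smul_coe, diagMat_smul_coe, diagMat_smul_coe, diagMat_smul_coe] at this
      simp only [Equiv.coe_mulLeft, Units.val_mul, hf]
      rw [← this, mul_one, mul_assoc]
  have h3 : ‖z‖ ^ 2 ≤ (Fintype.card Fˣ : ℝ) * ∑ s : Fˣ, ‖f s‖ := by
    have h4 : ((‖z‖ ^ 2 : ℝ) : ℂ) = (Fintype.card Fˣ : ℂ) * ∑ s : Fˣ, f s := by
      rw [← h2, inner_self_eq_norm_sq_to_K]
      push_cast
      rfl
    calc ‖z‖ ^ 2 = ‖((‖z‖ ^ 2 : ℝ) : ℂ)‖ := by
          rw [Complex.norm_real, Real.norm_of_nonneg (sq_nonneg _)]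
      _ = (Fintype.card Fˣ : ℝ) * ‖∑ s : Fˣ, f s‖ := by
          rw [h4, norm_mul, Complex.norm_natCast]
      _ ≤ (Fintype.card Fˣ : ℝ) * ∑ s : Fˣ, ‖f s‖ := by
          gcongr
          exact norm_sum_le _ _
  have h5 : (Fintype.card Fˣ : ℝ) * ‖b‖ ≤ ‖z‖ * ‖a ((0 : F) : OnePoint F) ∞‖ := by
    have := norm_inner_le_norm (𝕜 := ℂ) z (a ((0 : F) : OnePoint F) ∞)
    rw [h1, norm_mul, Complex.norm_natCast] at this
    exact this
  have hpos : (0 : ℝ) < (Fintype.card Fˣ : ℝ) := by exact_mod_cast Fintype.card_pos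
  have h6 : ((Fintype.card Fˣ : ℝ) * ‖b‖) ^ 2 ≤
      ((Fintype.card Fˣ : ℝ) * ∑ s : Fˣ, ‖f s‖) * c0 a := by
    calc ((Fintype.card Fˣ : ℝ) * ‖b‖) ^ 2 ≤ (‖z‖ * ‖a ((0 : F) : OnePoint F) ∞‖) ^ 2 := by
          gcongr
      _ = ‖z‖ ^ 2 * c0 a := by rw [c0]; ring
      _ ≤ _ := by
          gcongr
          exact c0_nonneg
  rw [← hcardR]
  have h7 : (Fintype.card Fˣ : ℝ) * ((Fintype.card Fˣ : ℝ) * ‖b‖ ^ 2) ≤
      (Fintype.card Fˣ : ℝ) * (c0 a * ∑ s : Fˣ, ‖f s‖) := by nlinarith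
  exact le_of_mul_le_mul_left h7 hpos

/-- The cross-ratio parameter. -/
def uu (l : F) (s : Fˣ) : F := l * ((s : F) - 1) ^ 2 / ((s : F) * (1 - l) ^ 2)

lemma Good.cross (ha : Good a) {l : F} (hl0 : l ≠ 0) (hl1 : l ≠ 1) (s : Fˣ)
    (hs1 : (s : F) ≠ 1) (hsl : (s : F) * l ≠ 1) :
    ⟪a ((1 : F) : OnePoint F) (l : OnePoint F),
      a ((s : F) : OnePoint F) (((s : F) * l : F) : OnePoint F)⟫_ℂ =
    ⟪a ((0 : F) : OnePoint F) ((1 : F) : OnePoint F), a ((uu l s : F) : OnePoint F) ∞⟫_ℂ := by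
  have hl1' : l - 1 ≠ 0 := sub_ne_zero.mpr hl1
  have hl1'' : 1 - l ≠ 0 := sub_ne_zero.mpr (Ne.symm hl1)
  have hs1' : 1 - (s : F) ≠ 0 := sub_ne_zero.mpr (Ne.symm hs1)
  have hsl' : 1 - (s : F) * l ≠ 0 := sub_ne_zero.mpr (Ne.symm hsl)
  have hs0 : (s : F) ≠ 0 := s.ne_zero
  have hdet : (!![l * (1 - (s : F)), -(l * (1 - (s : F))); l - 1, -((s : F) * l * (l - 1))]
      : Matrix (Fin 2) (Fin 2) F).det ≠ 0 := by
    rw [det_fin_two]
    have : (!![l * (1 - (s : F)), -(l * (1 - (s : F))); l - 1, -((s : F) * l * (l - 1))]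
      : Matrix (Fin 2) (Fin 2) F) 0 0 * (!![l * (1 - (s : F)), -(l * (1 - (s : F))); l - 1, -((s : F) * l * (l - 1))]
      : Matrix (Fin 2) (Fin 2) F) 1 1 - (!![l * (1 - (s : F)), -(l * (1 - (s : F))); l - 1, -((s : F) * l * (l - 1))]
      : Matrix (Fin 2) (Fin 2) F) 0 1 * (!![l * (1 - (s : F)), -(l * (1 - (s : F))); l - 1, -((s : F) * l * (l - 1))]
      : Matrix (Fin 2) (Fin 2) F) 1 0 = l * (1 - s) * (l - 1) * (1 - s * l) := by
      simp
      ring
    rw [this]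
    exact mul_ne_zero (mul_ne_zero (mul_ne_zero hl0 hs1') hl1') hsl'
  let g : GL (Fin 2) F := Matrix.GeneralLinearGroup.mkOfDetNeZero _ hdet
  have g00 : g 0 0 = l * (1 - (s : F)) := rfl
  have g01 : g 0 1 = -(l * (1 - (s : F))) := rfl
  have g10 : g 1 0 = l - 1 := rfl
  have g11 : g 1 1 = -((s : F) * l * (l - 1)) := rfl
  have e1 : g • (((1 : F)) : OnePoint F) = ((0 : F) : OnePoint F) := by
    rw [OnePoint.smul_some_eq_ite, g00, g01, g10, g11, if_neg]
    · rw [OnePoint.coe_eq_coe]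
      simp
    · have : (l - 1) * 1 + -(↑s * l * (l - 1)) = (l - 1) * (1 - s * l) := by ring
      rw [this]
      exact mul_ne_zero hl1' hsl'
  have e2 : g • ((l : F) : OnePoint F) = ((1 : F) : OnePoint F) := by
    have h : (l - 1) * l + -(↑s * l * (l - 1)) = (l - 1) * (l * (1 - s)) := by ring
    have hne : (l - 1) * (l * (1 - (s : F))) ≠ 0 := mul_ne_zero hl1' (mul_ne_zero hl0 hs1')
    rw [OnePoint.smul_some_eq_ite, g00, g01, g10, g11, h, if_neg hne, OnePoint.coe_eq_coe,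
      div_eq_one_iff_eq hne]
    ring
  have e3 : g • ((((s : F) * l : F)) : OnePoint F) = ∞ := by
    rw [OnePoint.smul_some_eq_ite, g00, g01, g10, g11, if_pos]
    ring
  have e4 : g • (((s : F)) : OnePoint F) = ((uu l s : F) : OnePoint F) := by
    have h : (l - 1) * (s : F) + -(↑s * l * (l - 1)) = (l - 1) * (s * (1 - l)) := by ring
    have hne : (l - 1) * ((s : F) * (1 - l)) ≠ 0 := mul_ne_zero hl1' (mul_ne_zero hs0 hl1'')
    rw [OnePoint.smul_some_eq_ite, g00, g01, g10, g11, h, if_neg hne, OnePoint.coe_eq_coe, uu,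
      div_eq_div_iff hne (mul_ne_zero hs0 (pow_ne_zero _ hl1''))]
    ring
  have := ha.inv g ((1 : F) : OnePoint F) (l : OnePoint F) ((s : F) : OnePoint F)
    (((s : F) * l : F) : OnePoint F)
  rw [e1, e2, e3, e4] at this
  exact this.symm

omit [Fintype F] [DecidableEq F] in
lemma uu_eq {l : F} (hl0 : l ≠ 0) (hl1 : l ≠ 1) {s t : Fˣ} (h : uu l s = uu l t) :
    s = t ∨ s = t⁻¹ := by
  have hl1'' : 1 - l ≠ 0 := sub_ne_zero.mpr (Ne.symm hl1)
  have hs0 : (s : F) ≠ 0 := s.ne_zero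
  have ht0 : (t : F) ≠ 0 := t.ne_zero
  rw [uu, uu, div_eq_div_iff (mul_ne_zero hs0 (pow_ne_zero _ hl1''))
    (mul_ne_zero ht0 (pow_ne_zero _ hl1''))] at h
  have h2 : l * (1 - l) ^ 2 * (((s : F) - t) * (s * t - 1)) = 0 := by linear_combination h
  have h3 : l * (1 - l) ^ 2 ≠ 0 := mul_ne_zero hl0 (pow_ne_zero _ hl1'')
  rcases mul_eq_zero.mp ((mul_eq_zero.mp h2).resolve_left h3) with h4 | h4
  · left
    exact Units.ext (sub_eq_zero.mp h4)
  · right
    rw [eq_inv_iff_mul_eq_one]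
    apply Units.ext
    push_cast
    exact sub_eq_zero.mp h4

lemma sum_uu_le {l : F} (hl0 : l ≠ 0) (hl1 : l ≠ 1) (f : F → ℝ) (hf : ∀ u, 0 ≤ f u) :
    ∑ s : Fˣ, f (uu l s) ≤ 2 * ∑ u : F, f u := by
  rw [← Finset.sum_fiberwise_of_maps_to (s := Finset.univ) (t := Finset.univ) (g := uu l)
    (fun _ _ => Finset.mem_univ _), Finset.mul_sum]
  apply Finset.sum_le_sum
  intro u _
  rw [Finset.sum_congr rfl (g := fun _ => f u)]
  · rw [Finset.sum_const, nsmul_eq_mul]
    gcongr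
    · exact hf u
    · have : (Finset.univ.filter (fun s : Fˣ => uu l s = u)).card ≤ 2 := by
        by_cases hne : (Finset.univ.filter (fun s : Fˣ => uu l s = u)).Nonempty
        · obtain ⟨t, ht⟩ := hne
          have hsub : (Finset.univ.filter (fun s : Fˣ => uu l s = u)) ⊆ {t, t⁻¹} := by
            intro s hs
            have h1 : uu l s = uu l t := by
              rw [(Finset.mem_filter.mp hs).2, (Finset.mem_filter.mp ht).2]
            rcases uu_eq hl0 hl1 h1 with h | h <;> simp [h]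
          exact (Finset.card_le_card hsub).trans Finset.card_le_two
        · rw [Finset.not_nonempty_iff_eq_empty] at hne
          rw [hne]
          simp
      exact_mod_cast this
  · intro s hs
    rw [(Finset.mem_filter.mp hs).2]

/-- the main bound for disjoint pairs in normal form -/
lemma Good.bound_std (ha : Good a) {l : F} (hl0 : l ≠ 0) (hl1 : l ≠ 1) :
    ‖⟪a ((1 : F) : OnePoint F) (l : OnePoint F), a ((0 : F) : OnePoint F) ∞⟫_ℂ‖ ^ 4 *
      ((Fintype.card F : ℝ) - 1) ≤ 16 * c0 a ^ 4 := by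
  set b : ℝ := ‖⟪a ((1 : F) : OnePoint F) (l : OnePoint F), a ((0 : F) : OnePoint F) ∞⟫_ℂ‖ with hb
  set q : ℝ := (Fintype.card F : ℝ) - 1 with hq
  have hq1 : 1 ≤ q := one_le_card_sub_one
  set β : F → ℝ := fun u =>
    ‖⟪a ((0 : F) : OnePoint F) ((1 : F) : OnePoint F), a (u : OnePoint F) ∞⟫_ℂ‖ with hβ
  have h0 := ha.torus_avg l
  have hcardR : (Fintype.card Fˣ : ℝ) = q := by
    rw [Fintype.card_units, Nat.cast_sub Fintype.card_pos]
    simp [hq]
  have h1 : ∑ s : Fˣ, ‖⟪a ((1 : F) : OnePoint F) (l : OnePoint F),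
      a ((s : F) : OnePoint F) (((s : F) * l : F) : OnePoint F)⟫_ℂ‖ ≤
      2 * c0 a + ∑ s : Fˣ, β (uu l s) := by
    have h2 : ∀ s : Fˣ, ‖⟪a ((1 : F) : OnePoint F) (l : OnePoint F),
      a ((s : F) : OnePoint F) (((s : F) * l : F) : OnePoint F)⟫_ℂ‖ ≤
      ((if s = 1 then c0 a else 0) + (if s = (Units.mk0 l hl0)⁻¹ then c0 a else 0))
        + β (uu l s) := by
      intro s
      have hc := c0_nonneg (a := a)
      have hβ0 : 0 ≤ β (uu l s) := norm_nonneg _
      by_cases hs1 : (s : F) = 1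
      · have : s = 1 := Units.ext hs1
        rw [if_pos this]
        have := ha.norm_inner_le ((1 : F) : OnePoint F) (l : OnePoint F)
          ((s : F) : OnePoint F) (((s : F) * l : F) : OnePoint F)
        have h3 : (0 : ℝ) ≤ (if s = (Units.mk0 l hl0)⁻¹ then c0 a else 0) := by
          split_ifs <;> linarith
        linarith
      by_cases hsl : (s : F) * l = 1
      · have : s = (Units.mk0 l hl0)⁻¹ := by
          rw [eq_inv_iff_mul_eq_one]
          apply Units.ext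
          simpa using hsl
        rw [if_pos this]
        have := ha.norm_inner_le ((1 : F) : OnePoint F) (l : OnePoint F)
          ((s : F) : OnePoint F) (((s : F) * l : F) : OnePoint F)
        have h3 : (0 : ℝ) ≤ (if s = 1 then c0 a else 0) := by
          split_ifs <;> linarith
        linarith
      rw [ha.cross hl0 hl1 s hs1 hsl]
      have h3 : (0 : ℝ) ≤ (if s = 1 then c0 a else 0) := by
        split_ifs <;> linarith
      have h4 : (0 : ℝ) ≤ (if s = (Units.mk0 l hl0)⁻¹ then c0 a else 0) := by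
        split_ifs <;> linarith
      change β (uu l s) ≤ _
      linarith
    refine (Finset.sum_le_sum fun s _ => h2 s).trans ?_
    rw [Finset.sum_add_distrib, Finset.sum_add_distrib, Finset.sum_ite_eq', Finset.sum_ite_eq']
    simp
    linarith
  have h2 : (∑ s : Fˣ, β (uu l s)) ^ 2 ≤ q * (4 * c0 a ^ 2) := by
    calc (∑ s : Fˣ, β (uu l s)) ^ 2 ≤ (Finset.univ : Finset Fˣ).card * ∑ s : Fˣ, β (uu l s) ^ 2 :=
          sq_sum_le_card_mul_sum_sq
      _ = q * ∑ s : Fˣ, β (uu l s) ^ 2 := by rw [Finset.card_univ, hcardR]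
      _ ≤ q * (2 * ∑ u : F, β u ^ 2) := by
          gcongr
          exact sum_uu_le hl0 hl1 (fun u => β u ^ 2) (fun u => sq_nonneg _)
      _ ≤ q * (2 * (2 * c0 a ^ 2)) := by
          gcongr
          exact ha.bessel _ _
      _ = _ := by ring
  have hc := c0_nonneg (a := a)
  have h3 : ∑ s : Fˣ, β (uu l s) ≤ 2 * c0 a * Real.sqrt q := by
    apply abs_le_of_sq_le_sq' _ (by positivity) |>.2
    calc (∑ s : Fˣ, β (uu l s)) ^ 2 ≤ q * (4 * c0 a ^ 2) := h2
      _ = (2 * c0 a * Real.sqrt q) ^ 2 := by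
          rw [mul_pow, Real.sq_sqrt (by linarith)]
          ring
  have hsq1 : 1 ≤ Real.sqrt q := by
    rw [Real.one_le_sqrt]
    exact hq1
  have h4 : q * b ^ 2 ≤ c0 a * (2 * c0 a + 2 * c0 a * Real.sqrt q) := by
    refine h0.trans ?_
    gcongr
    linarith
  have h5 : q * b ^ 2 ≤ 4 * c0 a ^ 2 * Real.sqrt q := by
    refine h4.trans ?_
    have : c0 a ^ 2 ≤ c0 a ^ 2 * Real.sqrt q := le_mul_of_one_le_right (sq_nonneg _) hsq1
    nlinarith
  have h6 : (q * b ^ 2) ^ 2 ≤ (4 * c0 a ^ 2 * Real.sqrt q) ^ 2 := by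
    gcongr
  have h7 : (4 * c0 a ^ 2 * Real.sqrt q) ^ 2 = q * (16 * c0 a ^ 4) := by
    rw [mul_pow, Real.sq_sqrt (by linarith)]
    ring
  rw [h7] at h6
  have h8 : q * (b ^ 4 * q) ≤ q * (16 * c0 a ^ 4) := by
    calc q * (b ^ 4 * q) = (q * b ^ 2) ^ 2 := by ring
      _ ≤ _ := h6
  exact le_of_mul_le_mul_left h8 (by linarith)

/-- the bound when the two pairs share a point -/
lemma Good.bound_c1 : |c1 a| ^ 4 * ((Fintype.card F : ℝ) - 1) ≤ 16 * c0 a ^ 4 := by
  set q : ℝ := (Fintype.card F : ℝ) - 1 with hq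
  have hq1 : 1 ≤ q := one_le_card_sub_one
  have hc := c0_nonneg (a := a)
  have h1 : |c1 a| = c0 a / q := by
    rw [c1, abs_div, abs_neg, abs_of_nonneg hc, abs_of_nonneg (by linarith)]
  rw [h1, div_pow]
  have h2 : c0 a ^ 4 / q ^ 4 * q = c0 a ^ 4 / q ^ 3 := by
    field_simp
  rw [h2]
  have h3 : c0 a ^ 4 / q ^ 3 ≤ c0 a ^ 4 := by
    apply div_le_self (by positivity)
    exact one_le_pow₀ hq1
  have : 0 ≤ c0 a ^ 4 := by positivity
  linarith

/-- **Main finite-level estimate.** -/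
theorem Good.bound (ha : Good a) {x y z w : OnePoint F} (hxy : x ≠ y) (hzw : z ≠ w)
    (h1 : ¬ (x = z ∧ y = w)) (h2 : ¬ (x = w ∧ y = z)) :
    ‖⟪a x y, a z w⟫_ℂ‖ ^ 4 * ((Fintype.card F : ℝ) - 1) ≤ 16 * c0 a ^ 4 := by
  have key : ∀ {x y z : OnePoint F}, x ≠ y → x ≠ z → y ≠ z →
      ‖⟪a x z, a y z⟫_ℂ‖ ^ 4 * ((Fintype.card F : ℝ) - 1) ≤ 16 * c0 a ^ 4 := by
    intro x y z hxy hxz hyz
    rw [ha.shared hxy hxz hyz, Complex.norm_real, Real.norm_eq_abs]
    exact Good.bound_c1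
  by_cases hxz : x = z
  · subst hxz
    have hyw : y ≠ w := fun h => h1 ⟨rfl, h⟩
    rw [ha.anti x y, ha.anti x w, inner_neg_neg]
    exact key hyw hxy.symm hzw.symm
  by_cases hyw : y = w
  · subst hyw
    exact key hxz hxy hzw
  by_cases hxw : x = w
  · subst hxw
    have hyz : y ≠ z := fun h => h2 ⟨rfl, h⟩
    rw [ha.anti x y, inner_neg_left, norm_neg]
    exact key hyz hxy.symm hzw
  by_cases hyz : y = z
  · subst hyz
    rw [ha.anti y w, inner_neg_right, norm_neg]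
    exact key hxw hxy hzw.symm
  -- disjoint
  obtain ⟨g, g0, g1, g2⟩ := exists_smul_three z x w (Ne.symm hxz) hzw hxw
  have hy0 : g • y ≠ ((0 : F) : OnePoint F) := fun h => hyz (smul_left_cancel g (h.trans g0.symm))
  have hy1 : g • y ≠ ((1 : F) : OnePoint F) :=
    fun h => hxy (smul_left_cancel g (g1.trans h.symm))
  have hyi : g • y ≠ ∞ := fun h => hyw (smul_left_cancel g (h.trans g2.symm))
  obtain ⟨l, hl⟩ := OnePoint.ne_infty_iff_exists.mp hyi
  have hl0 : l ≠ 0 := by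
    rintro rfl
    exact hy0 hl.symm
  have hl1 : l ≠ 1 := by
    rintro rfl
    exact hy1 hl.symm
  have := ha.inv g x y z w
  rw [g0, g1, g2, ← hl] at this
  rw [← this]
  exact ha.bound_std hl0 hl1

end Estimate

end Pool.Agent.Work.MP_79d1ba_al
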