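import Mathlib
import Pool.Agent.Work.MP_79d1ba_al.Estimate

/-!
Finite-level consequence: an invariant subspace of the cycle space over a finite field which does
not contain the standard triangle can only contain vectors whose sup norm is small compared with
the sum of the absolute values of the coefficients.
-/

set_option autoImplicit false

open scoped InnerProductSpace Matrix
open OnePoint Matrix

namespace Pool.Agent.Work.MP_79d1ba_al

section FiniteLevel

variable {F : Type*} [Field F] [Fintype F] [DecidableEq F]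

/-- the finite-dimensional Hilbert space of functions on pairs of points -/
abbrev HH (F : Type*) [Field F] [Fintype F] [DecidableEq F] : Type _ :=
  EuclideanSpace ℂ (OnePoint F × OnePoint F)

instance : DecidableEq (OnePoint F) := inferInstanceAs (DecidableEq (Option F))

/-- basis vector -/
noncomputable def ee (x y : OnePoint F) : HH F := EuclideanSpace.single (x, y) (1 : ℂ)

/-- the permutation of pairs -/
def permPair (g : GL (Fin 2) F) : (OnePoint F × OnePoint F) ≃ (OnePoint F × OnePoint F) :=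
  Equiv.prodCongr (MulAction.toPerm g) (MulAction.toPerm g)

/-- the unitary action -/
noncomputable def UU (g : GL (Fin 2) F) : HH F ≃ₗᵢ[ℂ] HH F :=
  LinearIsometryEquiv.piLpCongrLeft 2 ℂ ℂ (permPair g)

lemma UU_ee (g : GL (Fin 2) F) (x y : OnePoint F) : UU g (ee x y) = ee (g • x) (g • y) := by
  rw [UU, ee, EuclideanSpace.piLpCongrLeft_single]
  rfl

lemma UU_apply (g : GL (Fin 2) F) (f : HH F) (x y : OnePoint F) :
    UU g f (x, y) = f (g⁻¹ • x, g⁻¹ • y) := rfl

/-- antisymmetric functions with vanishing column sums -/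
def cyc (F : Type*) [Field F] [Fintype F] [DecidableEq F] : Submodule ℂ (HH F) where
  carrier := {f | (∀ x y, f (x, y) = - f (y, x)) ∧ ∀ y, ∑ x, f (x, y) = 0}
  add_mem' := by
    rintro f g ⟨hf1, hf2⟩ ⟨hg1, hg2⟩
    refine ⟨fun x y => ?_, fun y => ?_⟩
    · simp only [PiLp.add_apply]
      rw [hf1, hg1]
      ring
    · simp only [PiLp.add_apply, Finset.sum_add_distrib, hf2, hg2, add_zero]
  zero_mem' := by
    refine ⟨fun x y => ?_, fun y => ?_⟩ <;> simp
  smul_mem' := by
    rintro c f ⟨hf1, hf2⟩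
    refine ⟨fun x y => ?_, fun y => ?_⟩
    · simp only [PiLp.smul_apply, smul_eq_mul]
      rw [hf1]
      ring
    · simp only [PiLp.smul_apply, smul_eq_mul, ← Finset.mul_sum, hf2, mul_zero]

lemma UU_cyc (g : GL (Fin 2) F) {f : HH F} (hf : f ∈ cyc F) : UU g f ∈ cyc F := by
  obtain ⟨hf1, hf2⟩ := hf
  refine ⟨fun x y => ?_, fun y => ?_⟩
  · rw [UU_apply, UU_apply, hf1]
  · simp_rw [UU_apply]
    rw [← hf2 (g⁻¹ • y)]
    exact Fintype.sum_equiv (MulAction.toPerm g⁻¹) _ _ (fun x => rfl)

/-- the standard triangle -/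
noncomputable def tri (F : Type*) [Field F] [Fintype F] [DecidableEq F] : HH F :=
  (ee ((0 : F) : OnePoint F) ((1 : F) : OnePoint F) - ee ((1 : F) : OnePoint F) ((0 : F) : OnePoint F))
  + (ee ((1 : F) : OnePoint F) ∞ - ee ∞ ((1 : F) : OnePoint F))
  + (ee ∞ ((0 : F) : OnePoint F) - ee ((0 : F) : OnePoint F) ∞)

lemma ee_apply (x y : OnePoint F) (q : OnePoint F × OnePoint F) :
    ee x y q = if q = (x, y) then 1 else 0 := by
  rw [ee, EuclideanSpace.single, PiLp.single_apply]

lemma inner_ee (x y : OnePoint F) (f : HH F) : ⟪ee x y, f⟫_ℂ = f (x, y) := by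
  rw [ee, EuclideanSpace.inner_single_left]
  simp

lemma inner_ee' (x y : OnePoint F) (f : HH F) : ⟪f, ee x y⟫_ℂ = (starRingEnd ℂ) (f (x, y)) := by
  rw [← inner_ee, inner_conj_symm]

lemma tri_mem_cyc : tri F ∈ cyc F := by
  have h01 : ((0 : F) : OnePoint F) ≠ ((1 : F) : OnePoint F) := by
    intro h
    exact zero_ne_one (OnePoint.coe_eq_coe.mp h)
  refine ⟨fun x y => ?_, fun y => ?_⟩
  · simp only [tri, PiLp.add_apply, PiLp.sub_apply, ee_apply, Prod.mk.injEq]
    have h : ∀ a b c d : OnePoint F, (if a = b ∧ c = d then (1 : ℂ) else 0) =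
        (if c = d ∧ a = b then (1 : ℂ) else 0) := by
      intro a b c d
      simp only [and_comm]
    rw [h y, h y, h y, h y, h y, h y]
    ring
  · simp only [tri, PiLp.add_apply, PiLp.sub_apply, ee_apply, Prod.mk.injEq,
      Finset.sum_add_distrib, Finset.sum_sub_distrib]
    have h : ∀ b d : OnePoint F, ∑ x, (if x = b ∧ y = d then (1 : ℂ) else 0) =
        (if y = d then (1 : ℂ) else 0) := by
      intro b d
      simp only [ite_and]
      rw [Finset.sum_ite_eq' Finset.univ b]
      simp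
    simp only [h]
    ring

/-- finite-level theorem -/
theorem finite_level (N : Submodule ℂ (HH F)) (hN : N ≤ cyc F)
    (hinv : ∀ (g : GL (Fin 2) F), ∀ f ∈ N, UU g f ∈ N) (htri : tri F ∉ N)
    (v : HH F) (hv : v ∈ N) (q0 : OnePoint F × OnePoint F) (δ : ℝ) (hδ : 0 ≤ δ)
    (hδ2 : 16 ≤ δ ^ 4 * ((Fintype.card F : ℝ) - 1)) :
    2 * ‖v q0‖ ≤ δ * ∑ q, ‖v q‖ := by
  set W : Submodule ℂ (HH F) := cyc F ⊓ Nᗮ with hW
  set P := W.starProjection with hP
  set a : OnePoint F → OnePoint F → HH F := fun x y => P (ee x y - ee y x) with ha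
  -- invariance of W
  have hWinv : ∀ g : GL (Fin 2) F, ∀ f ∈ W, UU g f ∈ W := by
    rintro g f ⟨hf1, hf2⟩
    refine ⟨UU_cyc g hf1, ?_⟩
    rw [SetLike.mem_coe, Submodule.mem_orthogonal] at hf2 ⊢
    intro u hu
    have h1 := hf2 (UU g⁻¹ u) (hinv g⁻¹ u hu)
    have h2 : UU g (UU g⁻¹ u) = u := by
      ext q
      obtain ⟨x, y⟩ := q
      rw [UU_apply, UU_apply]
      simp
    rw [← h2, LinearIsometryEquiv.inner_map_map]
    exact h1
  have hUP : ∀ (g : GL (Fin 2) F) (f : HH F), P (UU g f) = UU g (P f) := by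
    intro g f
    apply Submodule.eq_starProjection_of_mem_of_inner_eq_zero
    · exact hWinv g _ (Submodule.starProjection_apply_mem _ _)
    · intro w hw
      have h2 : UU g (UU g⁻¹ w) = w := by
        ext q
        obtain ⟨x, y⟩ := q
        rw [UU_apply, UU_apply]
        simp
      rw [← h2, ← map_sub, LinearIsometryEquiv.inner_map_map]
      exact Submodule.starProjection_inner_eq_zero _ _ (hWinv g⁻¹ w hw)
  have hgood : Good a := by
    refine ⟨fun x y => ?_, fun g x y z w => ?_, fun y => ?_⟩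
    · simp only [ha]
      rw [← map_neg]
      congr 1
      abel
    · simp only [ha]
      rw [← UU_ee, ← UU_ee, ← UU_ee, ← UU_ee, ← map_sub, ← map_sub, hUP, hUP,
        LinearIsometryEquiv.inner_map_map]
    · have h1 : a ∞ y + ∑ u : F, a (u : OnePoint F) y = P (∑ x : OnePoint F, (ee x y - ee y x)) := by
        rw [map_sum]
        exact (Fintype.sum_option (fun x : Option F => a x y)).symm
      rw [h1, hP, Submodule.starProjection_apply_eq_zero_iff, Submodule.mem_orthogonal]
      rintro f ⟨⟨hf1, hf2⟩, -⟩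
      rw [inner_sum]
      simp only [inner_sub_right, inner_ee']
      rw [Finset.sum_sub_distrib, ← map_sum, ← map_sum, hf2]
      have : ∑ x, f (y, x) = 0 := by
        rw [Finset.sum_congr rfl (fun x _ => hf1 y x), Finset.sum_neg_distrib, hf2, neg_zero]
      rw [this]
      simp
  have hc0 : 0 < c0 a := by
    rcases (c0_nonneg (a := a)).lt_or_eq with h | h
    · exact h
    · exfalso
      apply htri
      have hzero : ∀ x y, a x y = 0 := by
        intro x y
        by_cases hxy : x = y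
        · subst hxy
          exact hgood.self x
        · have := hgood.normSq hxy
          rw [← h] at this
          exact norm_eq_zero.mp (pow_eq_zero_iff two_ne_zero |>.mp this)
      have h1 : P (tri F) = 0 := by
        have h2 : P (tri F) = a ((0 : F) : OnePoint F) ((1 : F) : OnePoint F) +
            a ((1 : F) : OnePoint F) ∞ + a ∞ ((0 : F) : OnePoint F) := by
          simp only [tri, ha, map_add]
        rw [h2, hzero, hzero, hzero]
        simp
      rw [hP, Submodule.starProjection_apply_eq_zero_iff] at h1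
      -- decompose tri along N
      set n := N.starProjection (tri F) with hn
      have hnN : n ∈ N := Submodule.starProjection_apply_mem _ _
      have h3 : tri F - n ∈ Nᗮ := Submodule.sub_starProjection_mem_orthogonal _
      have h4 : tri F - n ∈ cyc F := Submodule.sub_mem _ tri_mem_cyc (hN hnN)
      have h5 : tri F - n ∈ W := ⟨h4, h3⟩
      have h6 : ⟪tri F - n, tri F⟫_ℂ = 0 := (Submodule.mem_orthogonal _ _).mp h1 _ h5
      have h7 : ⟪tri F - n, n⟫_ℂ = 0 := (Submodule.mem_orthogonal' _ _).mp h3 _ hnN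
      have h8 : ⟪tri F - n, tri F - n⟫_ℂ = 0 := by
        rw [inner_sub_right, h6, h7, sub_zero]
      have h9 : tri F - n = 0 := inner_self_eq_zero.mp h8
      rw [sub_eq_zero.mp h9]
      exact hnN
  -- v is killed by P
  have hPv : P v = 0 := by
    rw [hP, Submodule.starProjection_apply_eq_zero_iff, Submodule.mem_orthogonal]
    rintro f ⟨-, hf2⟩
    exact (Submodule.mem_orthogonal' _ _).mp hf2 _ hv
  obtain ⟨hv1, hv2⟩ := hN hv
  have hsum : ∑ q : OnePoint F × OnePoint F, v q • a q.1 q.2 = 0 := by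
    have h1 : ∑ q : OnePoint F × OnePoint F, v q • (ee q.1 q.2 - ee q.2 q.1) = (2 : ℂ) • v := by
      ext r
      obtain ⟨x, y⟩ := r
      simp only [PiLp.smul_apply, smul_eq_mul]
      rw [show (∑ q : OnePoint F × OnePoint F, v q • (ee q.1 q.2 - ee q.2 q.1)) (x, y) =
        ∑ q : OnePoint F × OnePoint F, v q * (ee q.1 q.2 (x, y) - ee q.2 q.1 (x, y)) by
          rw [WithLp.ofLp_sum, Finset.sum_apply]; rfl]
      simp only [mul_sub, Finset.sum_sub_distrib, ee_apply]
      have e1 : ∑ q : OnePoint F × OnePoint F, v q * (if (x, y) = (q.1, q.2) then (1 : ℂ) else 0)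
          = v (x, y) := by
        rw [Finset.sum_eq_single (x, y)]
        · simp
        · rintro ⟨z, w⟩ _ hne
          rw [if_neg (fun h => hne h.symm)]
          simp
        · simp
      have e2 : ∑ q : OnePoint F × OnePoint F, v q * (if (x, y) = (q.2, q.1) then (1 : ℂ) else 0)
          = v (y, x) := by
        rw [Finset.sum_eq_single (y, x)]
        · simp
        · rintro ⟨z, w⟩ _ hne
          rw [if_neg]
          · simp
          · intro h
            apply hne
            simp only [Prod.mk.injEq] at h ⊢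
            exact ⟨h.2.symm, h.1.symm⟩
        · simp
      rw [e1, e2, hv1 y x]
      ring
    have h2 : ∑ q : OnePoint F × OnePoint F, v q • a q.1 q.2 =
        P (∑ q : OnePoint F × OnePoint F, v q • (ee q.1 q.2 - ee q.2 q.1)) := by
      rw [map_sum]
      simp only [_root_.map_smul, ha]
    rw [h2, h1, _root_.map_smul, hPv, smul_zero]
  obtain ⟨x0, y0⟩ := q0
  by_cases hxy0 : x0 = y0
  · subst hxy0
    have h1 := hv1 x0 x0
    have h2 : v (x0, x0) = 0 := by
      have : (2 : ℂ) * v (x0, x0) = 0 := by linear_combination h1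
      simpa using this
    rw [h2, norm_zero, mul_zero]
    exact mul_nonneg hδ (Finset.sum_nonneg fun _ _ => norm_nonneg _)
  -- bound off-diagonal
  have hoff : ∀ q : OnePoint F × OnePoint F, q ≠ (x0, y0) → q ≠ (y0, x0) →
      ‖⟪a x0 y0, a q.1 q.2⟫_ℂ‖ ≤ δ * c0 a := by
    rintro ⟨z, w⟩ h1 h2
    by_cases hzw : z = w
    · subst hzw
      simp only
      rw [hgood.self, inner_zero_right, norm_zero]
      exact mul_nonneg hδ hc0.le
    have h3 := hgood.bound hxy0 hzw (fun h => h1 (by rw [h.1, h.2])) (fun h => h2 (by rw [h.1, h.2]))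
    simp only
    set b := ‖⟪a x0 y0, a z w⟫_ℂ‖
    have hq := card_sub_one_pos (F := F)
    have h4 : b ^ 4 * ((Fintype.card F : ℝ) - 1) ≤ (δ * c0 a) ^ 4 * ((Fintype.card F : ℝ) - 1) := by
      refine h3.trans ?_
      calc 16 * c0 a ^ 4 ≤ (δ ^ 4 * ((Fintype.card F : ℝ) - 1)) * c0 a ^ 4 := by
            gcongr
        _ = _ := by ring
    have h5 : b ^ 4 ≤ (δ * c0 a) ^ 4 := le_of_mul_le_mul_right h4 hq
    exact le_of_pow_le_pow_left₀ (by norm_num) (mul_nonneg hδ hc0.le) h5
  have hne : (x0, y0) ≠ (y0, x0) := by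
    intro h
    exact hxy0 (Prod.mk.inj h).1
  have h0 : ∑ q : OnePoint F × OnePoint F, v q * ⟪a x0 y0, a q.1 q.2⟫_ℂ = 0 := by
    have : ⟪a x0 y0, ∑ q : OnePoint F × OnePoint F, v q • a q.1 q.2⟫_ℂ = 0 := by
      rw [hsum, inner_zero_right]
    rw [inner_sum] at this
    simpa only [inner_smul_right] using this
  set S : Finset (OnePoint F × OnePoint F) := (Finset.univ.erase (x0, y0)).erase (y0, x0) with hS
  have h1 : ∑ q : OnePoint F × OnePoint F, v q * ⟪a x0 y0, a q.1 q.2⟫_ℂ =
      v (x0, y0) * ⟪a x0 y0, a x0 y0⟫_ℂ + (v (y0, x0) * ⟪a x0 y0, a y0 x0⟫_ℂ +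
        ∑ q ∈ S, v q * ⟪a x0 y0, a q.1 q.2⟫_ℂ) := by
    rw [hS, Finset.add_sum_erase _ (fun q => v q * ⟪a x0 y0, a q.1 q.2⟫_ℂ)
      (Finset.mem_erase.mpr ⟨Ne.symm hne, Finset.mem_univ _⟩),
      Finset.add_sum_erase _ (fun q => v q * ⟪a x0 y0, a q.1 q.2⟫_ℂ) (Finset.mem_univ _)]
  have h2 : (2 : ℂ) * v (x0, y0) * (c0 a : ℂ) = - ∑ q ∈ S, v q * ⟪a x0 y0, a q.1 q.2⟫_ℂ := by
    have e1 := hgood.inner_self hxy0
    have e2 : ⟪a x0 y0, a y0 x0⟫_ℂ = - (c0 a : ℂ) := by
      rw [hgood.anti y0 x0, inner_neg_right, e1]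
    rw [h1, e1, e2, hv1 y0 x0] at h0
    linear_combination h0
  have h3 : 2 * ‖v (x0, y0)‖ * c0 a ≤ (δ * ∑ q, ‖v q‖) * c0 a := by
    have e1 : ‖(2 : ℂ) * v (x0, y0) * (c0 a : ℂ)‖ = 2 * ‖v (x0, y0)‖ * c0 a := by
      rw [norm_mul, norm_mul, Complex.norm_real, Real.norm_of_nonneg hc0.le]
      simp
    rw [← e1, h2, norm_neg]
    calc ‖∑ q ∈ S, v q * ⟪a x0 y0, a q.1 q.2⟫_ℂ‖ ≤ ∑ q ∈ S, ‖v q * ⟪a x0 y0, a q.1 q.2⟫_ℂ‖ :=
          norm_sum_le _ _
      _ ≤ ∑ q ∈ S, ‖v q‖ * (δ * c0 a) := by
          apply Finset.sum_le_sum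
          intro q hq
          rw [norm_mul]
          gcongr
          rw [hS, Finset.mem_erase, Finset.mem_erase] at hq
          exact hoff q hq.2.1 hq.1
      _ ≤ ∑ q, ‖v q‖ * (δ * c0 a) := by
          apply Finset.sum_le_sum_of_subset_of_nonneg (Finset.subset_univ _)
          intro q _ _
          exact mul_nonneg (norm_nonneg _) (mul_nonneg hδ hc0.le)
      _ = _ := by
          rw [← Finset.sum_mul]
          ring
  exact le_of_mul_le_mul_right h3 hc0

end FiniteLevel

end Pool.Agent.Work.MP_79d1ba_al
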