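import Mathlib
import Pool.Agent.Work.MP_79d1ba_al.FiniteLevel

/-!
The complex case on the concrete model: finitely supported functions on pairs of points of the
projective line over an algebraic closure of a finite field.
-/

set_option autoImplicit false

open scoped InnerProductSpace Matrix
open OnePoint Matrix

namespace Pool.Agent.Work.MP_79d1ba_al

section Model

variable {K : Type*} [Field K] [DecidableEq K]

/-- the permutation of pairs of points induced by a matrix -/
def pp (g : GL (Fin 2) K) : (OnePoint K × OnePoint K) ≃ (OnePoint K × OnePoint K) :=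
  Equiv.prodCongr (MulAction.toPerm g) (MulAction.toPerm g)

/-- action on finitely supported functions -/
noncomputable def act (k : Type*) [Field k] (g : GL (Fin 2) K) :
    ((OnePoint K × OnePoint K) →₀ k) →ₗ[k] ((OnePoint K × OnePoint K) →₀ k) :=
  Finsupp.lmapDomain k k (pp g)

/-- elementary antisymmetric function -/
noncomputable def edge (k : Type*) [Field k] (x y : OnePoint K) : (OnePoint K × OnePoint K) →₀ k :=
  Finsupp.single (x, y) 1 - Finsupp.single (y, x) 1

/-- the triangle function -/
noncomputable def triangle (k : Type*) [Field k] (x y z : OnePoint K) :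
    (OnePoint K × OnePoint K) →₀ k :=
  edge k x y + edge k y z + edge k z x

end Model

section Transfer

variable {K : Type*} [Field K] [DecidableEq K]
variable {L : Type*} [Field L] [Fintype L] [DecidableEq L] (i : L →+* K)

/-- extension by zero -/
noncomputable def ext0 : HH L →ₗ[ℂ] ((OnePoint K × OnePoint K) →₀ ℂ) :=
  (Finsupp.lmapDomain ℂ ℂ (Prod.map (OnePoint.map i) (OnePoint.map i))) ∘ₗ
    (Finsupp.linearEquivFunOnFinite ℂ ℂ (OnePoint L × OnePoint L)).symm.toLinearMap ∘ₗ
    (WithLp.linearEquiv 2 ℂ ((OnePoint L × OnePoint L) → ℂ)).toLinearMap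

omit [DecidableEq K] [Fintype L] [DecidableEq L] in
lemma omap_inj : Function.Injective (OnePoint.map i) :=
  Option.map_injective i.injective

lemma ext0_eq (f : HH L) : ext0 i f =
    Finsupp.mapDomain (Prod.map (OnePoint.map i) (OnePoint.map i))
      (Finsupp.equivFunOnFinite.symm (fun q => f q)) := rfl

lemma ext0_apply (f : HH L) (x y : OnePoint L) :
    ext0 i f (OnePoint.map i x, OnePoint.map i y) = f (x, y) := by
  rw [ext0_eq]
  have := Finsupp.mapDomain_apply ((omap_inj i).prodMap (omap_inj i))
    (Finsupp.equivFunOnFinite.symm (fun q => f q)) (x, y)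
  rw [Prod.map_apply] at this
  rw [this]
  rfl

lemma ext0_single (x y : OnePoint L) :
    ext0 i (ee x y) = Finsupp.single (OnePoint.map i x, OnePoint.map i y) 1 := by
  rw [ext0_eq]
  have : (Finsupp.equivFunOnFinite.symm (fun q => (ee x y : HH L) q)) =
      Finsupp.single (x, y) (1 : ℂ) := by
    ext q
    rw [Finsupp.single_apply]
    simp only [Finsupp.equivFunOnFinite_symm_apply_apply, ee_apply]
    simp only [eq_comm]
  rw [this, Finsupp.mapDomain_single]
  rfl

lemma ext0_UU (g : GL (Fin 2) L) (f : HH L) :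
    ext0 i (UU g f) = act ℂ (g.map i) (ext0 i f) := by
  have h1 : (Finsupp.equivFunOnFinite.symm (fun q => UU g f q)) =
      Finsupp.mapDomain (permPair g) (Finsupp.equivFunOnFinite.symm (fun q => f q)) := by
    ext q
    obtain ⟨x, y⟩ := q
    have : (x, y) = permPair g (g⁻¹ • x, g⁻¹ • y) := by
      simp [permPair]
    rw [Finsupp.equivFunOnFinite_symm_apply_apply, UU_apply]
    conv_rhs => rw [this]
    rw [Finsupp.mapDomain_apply (permPair g).injective]
    rfl
  rw [ext0_eq, h1, ext0_eq, act, Finsupp.lmapDomain_apply, ← Finsupp.mapDomain_comp,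
    ← Finsupp.mapDomain_comp]
  congr 1
  funext q
  obtain ⟨x, y⟩ := q
  simp only [Function.comp_apply, permPair, pp, Equiv.prodCongr_apply, Prod.map_apply,
    MulAction.toPerm_apply, OnePoint.map_smul]

lemma ext0_tri : ext0 i (tri L) = triangle ℂ ((0 : K) : OnePoint K) ((1 : K) : OnePoint K) ∞ := by
  simp only [tri, map_add, map_sub, ext0_single, triangle, edge, OnePoint.map_some,
    OnePoint.map_infty, map_zero, map_one]

end Transfer

section Complex

variable {K : Type*} [Field K] [DecidableEq K]

lemma exists_finite_subfield (p : ℕ) [Fact p.Prime] [Algebra (ZMod p) K]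
    [Algebra.IsAlgebraic (ZMod p) K] [Infinite K] (S : Finset K) (n : ℕ) :
    ∃ L : IntermediateField (ZMod p) K, Finite L ∧ (∀ x ∈ S, x ∈ L) ∧ n ≤ Nat.card L := by
  obtain ⟨T, hT⟩ := Infinite.exists_superset_card_eq S (n + S.card) (by omega)
  have hfd : FiniteDimensional (ZMod p) (IntermediateField.adjoin (ZMod p) (T : Set K)) := by
    have : Finite (T : Set K) := by
      rw [Set.finite_coe_iff]
      exact T.finite_toSet
    exact IntermediateField.finiteDimensional_adjoin (fun x _ => Algebra.IsIntegral.isIntegral x)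
  have hfin : Finite (IntermediateField.adjoin (ZMod p) (T : Set K)) :=
    Module.finite_of_finite (ZMod p)
  refine ⟨IntermediateField.adjoin (ZMod p) (T : Set K), hfin, ?_, ?_⟩
  · intro x hx
    exact IntermediateField.subset_adjoin _ _ (hT.1 hx)
  · have h1 : (T : Set K) ⊆ (IntermediateField.adjoin (ZMod p) (T : Set K) : Set K) :=
      IntermediateField.subset_adjoin _ _
    have h2 : (T : Set K).ncard ≤ (IntermediateField.adjoin (ZMod p) (T : Set K) : Set K).ncard :=
      Set.ncard_le_ncard h1 (Set.toFinite _)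
    rw [Set.ncard_coe_finset, hT.2] at h2
    have h3 : (IntermediateField.adjoin (ZMod p) (T : Set K) : Set K).ncard =
      Nat.card (IntermediateField.adjoin (ZMod p) (T : Set K)) := rfl
    rw [h3] at h2
    omega

/-- The complex case. -/
theorem complex_case (p : ℕ) [Fact p.Prime] [Algebra (ZMod p) K]
    [Algebra.IsAlgebraic (ZMod p) K] [Infinite K]
    (N : Submodule ℂ ((OnePoint K × OnePoint K) →₀ ℂ))
    (hinv : ∀ g : GL (Fin 2) K, ∀ f ∈ N, act ℂ g f ∈ N)
    (hanti : ∀ f ∈ N, ∀ x y, f (x, y) = - f (y, x))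
    (hsum : ∀ f ∈ N, Finsupp.mapDomain Prod.snd f = 0)
    (v : (OnePoint K × OnePoint K) →₀ ℂ) (hv : v ∈ N) (hv0 : v ≠ 0) :
    triangle ℂ ((0 : K) : OnePoint K) ((1 : K) : OnePoint K) ∞ ∈ N := by
  classical
  by_contra hcon
  obtain ⟨q0, hq0⟩ := Finsupp.ne_iff.mp hv0
  rw [Finsupp.zero_apply] at hq0
  set V : ℝ := ∑ q ∈ v.support, ‖v q‖ with hV
  have hVq : ‖v q0‖ ≤ V := Finset.single_le_sum (f := fun q => ‖v q‖) (fun _ _ => norm_nonneg _)
    (Finsupp.mem_support_iff.mpr hq0)
  have hq0pos : 0 < ‖v q0‖ := norm_pos_iff.mpr hq0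
  have hVpos : 0 < V := lt_of_lt_of_le hq0pos hVq
  set δ : ℝ := ‖v q0‖ / V with hδ
  have hδpos : 0 < δ := div_pos hq0pos hVpos
  obtain ⟨n, hn⟩ := exists_nat_ge (16 / δ ^ 4 + 1)
  -- points of `K` appearing in the support of `v`
  set S : Finset K := (v.support.image Prod.fst ∪ v.support.image Prod.snd).preimage
    (fun x : K => (x : OnePoint K)) (OnePoint.coe_injective.injOn) with hS
  obtain ⟨L, hLfin, hLS, hLn⟩ := exists_finite_subfield p S n
  letI : Fintype L := Fintype.ofFinite L
  set i : L →+* K := algebraMap L K with hi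
  have hin : ∀ q ∈ v.support, ∃ x y : OnePoint L, q = (OnePoint.map i x, OnePoint.map i y) := by
    rintro ⟨x, y⟩ hq
    have hx : ∃ x' : OnePoint L, x = OnePoint.map i x' := by
      cases x with
      | infty => exact ⟨∞, by simp⟩
      | coe x =>
        have : x ∈ S := by
          rw [hS, Finset.mem_preimage, Finset.mem_union]
          left
          exact Finset.mem_image.mpr ⟨_, hq, rfl⟩
        exact ⟨((⟨x, hLS x this⟩ : L) : OnePoint L), by simp [hi]⟩
    have hy : ∃ y' : OnePoint L, y = OnePoint.map i y' := by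
      cases y with
      | infty => exact ⟨∞, by simp⟩
      | coe y =>
        have : y ∈ S := by
          rw [hS, Finset.mem_preimage, Finset.mem_union]
          right
          exact Finset.mem_image.mpr ⟨_, hq, rfl⟩
        exact ⟨((⟨y, hLS y this⟩ : L) : OnePoint L), by simp [hi]⟩
    obtain ⟨x', rfl⟩ := hx
    obtain ⟨y', rfl⟩ := hy
    exact ⟨x', y', rfl⟩
  set v' : HH L := WithLp.toLp 2 (fun q => v (OnePoint.map i q.1, OnePoint.map i q.2)) with hv'
  have hv'ap : ∀ x y, v' (x, y) = v (OnePoint.map i x, OnePoint.map i y) := fun _ _ => rfl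
  have hext : ext0 i v' = v := by
    ext q
    by_cases hq : ∃ x y : OnePoint L, q = (OnePoint.map i x, OnePoint.map i y)
    · obtain ⟨x, y, rfl⟩ := hq
      rw [ext0_apply]
    · have h1 : v q = 0 := by
        by_contra h
        exact hq (hin q (Finsupp.mem_support_iff.mpr h))
      rw [h1, ext0_eq]
      apply Finsupp.mapDomain_of_notMem_range
      rintro ⟨⟨x, y⟩, hxy⟩
      exact hq ⟨x, y, hxy.symm⟩
  set N' : Submodule ℂ (HH L) := N.comap (ext0 i) with hN'
  have hN'cyc : N' ≤ cyc L := by
    intro f hf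
    rw [hN', Submodule.mem_comap] at hf
    refine ⟨fun x y => ?_, fun y => ?_⟩
    · rw [← ext0_apply i f x y, ← ext0_apply i f y x]
      exact hanti _ hf _ _
    · have h1 := hsum _ hf
      rw [ext0_eq, ← Finsupp.mapDomain_comp] at h1
      have h2 : (Prod.snd ∘ Prod.map (OnePoint.map i) (OnePoint.map i)) =
          (OnePoint.map i) ∘ (Prod.snd : OnePoint L × OnePoint L → OnePoint L) := rfl
      rw [h2, Finsupp.mapDomain_comp] at h1
      have h3 : Finsupp.mapDomain (Prod.snd : OnePoint L × OnePoint L → OnePoint L)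
          (Finsupp.equivFunOnFinite.symm (fun q => f q)) = 0 := by
        apply Finsupp.mapDomain_injective (omap_inj i)
        rw [h1, Finsupp.mapDomain_zero]
      have h4 := DFunLike.congr_fun h3 y
      rw [Finsupp.zero_apply, Finsupp.mapDomain, Finsupp.sum_apply, Finsupp.sum_fintype _ _ (by simp)] at h4
      simp only [Finsupp.single_apply, Finsupp.equivFunOnFinite_symm_apply_apply] at h4
      rw [Fintype.sum_prod_type] at h4
      simpa using h4
  have hN'inv : ∀ (g : GL (Fin 2) L), ∀ f ∈ N', UU g f ∈ N' := by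
    intro g f hf
    rw [hN', Submodule.mem_comap] at hf ⊢
    rw [ext0_UU]
    exact hinv _ _ hf
  have htri : tri L ∉ N' := by
    rw [hN', Submodule.mem_comap, ext0_tri]
    exact hcon
  have hv'N : v' ∈ N' := by
    rw [hN', Submodule.mem_comap, hext]
    exact hv
  obtain ⟨x0, y0, rfl⟩ := hin q0 (Finsupp.mem_support_iff.mpr hq0)
  have hcard : 16 ≤ δ ^ 4 * ((Fintype.card L : ℝ) - 1) := by
    have h1 : (n : ℝ) ≤ (Fintype.card L : ℝ) := by
      rw [← Nat.card_eq_fintype_card]
      exact_mod_cast hLn
    have h2 : 16 / δ ^ 4 ≤ (Fintype.card L : ℝ) - 1 := by linarith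
    rw [div_le_iff₀ (by positivity)] at h2
    linarith
  have key := finite_level N' hN'cyc hN'inv htri v' hv'N (x0, y0) δ hδpos.le hcard
  rw [hv'ap] at key
  have hsumV : ∑ q, ‖v' q‖ = V := by
    have h1 : ∑ q, ‖v' q‖ = ∑ r ∈ Finset.univ.image (Prod.map (OnePoint.map i) (OnePoint.map i)),
        ‖v r‖ := by
      rw [Finset.sum_image]
      · rfl
      · intro a _ b _ hab
        exact ((omap_inj i).prodMap (omap_inj i)) hab
    rw [h1, hV]
    symm
    apply Finset.sum_subset
    · intro q hq
      obtain ⟨x, y, rfl⟩ := hin q hq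
      exact Finset.mem_image.mpr ⟨(x, y), Finset.mem_univ _, rfl⟩
    · intro q _ hq
      rw [Finsupp.notMem_support_iff.mp hq, norm_zero]
  rw [hsumV, hδ, div_mul_cancel₀ _ hVpos.ne'] at key
  linarith

end Complex

end Pool.Agent.Work.MP_79d1ba_al
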