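import Mathlib
import Pool.Agent.Work.MP_79d1ba_al.ComplexCase

/-!
Passage from the complex numbers to an arbitrary coefficient field of characteristic zero.
-/

set_option autoImplicit false

open scoped Matrix Cardinal
open OnePoint Matrix

universe u v

namespace Pool.Agent.Work.MP_79d1ba_al

/-- a countable field of characteristic zero embeds into the complex numbers -/
lemma exists_ringHom_complex (k : Type u) [Field k] [CharZero k] [Countable k] :
    Nonempty (k →+* ℂ) := by
  let A := FractionRing (MvPolynomial ℝ k)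
  let Ω := AlgebraicClosure A
  have hA : #A = Cardinal.lift.{u} 𝔠 := by
    rw [FractionRing.cardinalMk, MvPolynomial.cardinalMk_eq_max_lift]
    have h1 : Cardinal.lift.{0} #k ≤ ℵ₀ := by
      simp [Cardinal.mk_le_aleph0]
    have h2 : Cardinal.lift.{u} #ℝ = Cardinal.lift.{u} 𝔠 := by
      rw [Cardinal.mk_real]
      simp
    rw [h2]
    have h3 : ℵ₀ ≤ Cardinal.lift.{u} 𝔠 := by
      simp [Cardinal.aleph0_le_continuum]
    rw [max_eq_left]
    · rw [max_eq_right]
      exact h1.trans h3
    · exact le_trans h3 (le_max_right _ _)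
  have hΩ : #Ω = Cardinal.lift.{u} 𝔠 := by
    apply le_antisymm
    · have := Algebra.IsAlgebraic.cardinalMk_le_max A Ω
      rw [hA] at this
      refine this.trans ?_
      rw [max_eq_left]
      simp [Cardinal.aleph0_le_continuum]
    · rw [← hA]
      exact Cardinal.mk_le_of_injective (algebraMap A Ω).injective
  have : CharZero A := by
    have : Function.Injective (algebraMap k A) := (algebraMap k A).injective
    exact charZero_of_injective_algebraMap (R := k) this
  have : CharZero Ω := charZero_of_injective_algebraMap (R := A) (algebraMap A Ω).injective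
  have h1 : ℵ₀ < #Ω := by
    rw [hΩ]
    simp [Cardinal.aleph0_lt_continuum]
  have h2 : Nonempty (Ω ≃ ℂ) := by
    rw [← Cardinal.lift_mk_eq']
    rw [hΩ, Cardinal.mk_complex]
    simp
  obtain ⟨e⟩ := IsAlgClosed.ringEquiv_of_equiv_of_charZero h1 h2
  exact ⟨(e.toRingHom.comp (algebraMap A Ω)).comp (algebraMap k A)⟩

section

variable {K : Type v} [Field K] [DecidableEq K]

/-- the span of the orbit -/
noncomputable def Sp (k : Type*) [Field k] (v : (OnePoint K × OnePoint K) →₀ k) :
    Submodule k ((OnePoint K × OnePoint K) →₀ k) :=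
  Submodule.span k (Set.range (fun g : GL (Fin 2) K => act k g v))

/-- change of coefficients -/
noncomputable def mapF {k1 k2 : Type*} [Field k1] [Field k2] (φ : k1 →+* k2) {Y : Type*}
    (v : Y →₀ k1) : Y →₀ k2 := Finsupp.mapRange φ (map_zero φ) v

lemma mapF_add {k1 k2 : Type*} [Field k1] [Field k2] (φ : k1 →+* k2) {Y : Type*}
    (v w : Y →₀ k1) : mapF φ (v + w) = mapF φ v + mapF φ w := by
  ext q; simp [mapF]

lemma mapF_sub {k1 k2 : Type*} [Field k1] [Field k2] (φ : k1 →+* k2) {Y : Type*}
    (v w : Y →₀ k1) : mapF φ (v - w) = mapF φ v - mapF φ w := by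
  ext q; simp [mapF]

lemma mapF_smul {k1 k2 : Type*} [Field k1] [Field k2] (φ : k1 →+* k2) {Y : Type*}
    (c : k1) (v : Y →₀ k1) : mapF φ (c • v) = φ c • mapF φ v := by
  ext q; simp [mapF]

lemma mapF_single {k1 k2 : Type*} [Field k1] [Field k2] (φ : k1 →+* k2) {Y : Type*}
    (q : Y) (c : k1) : mapF φ (Finsupp.single q c) = Finsupp.single q (φ c) := by
  rw [mapF, Finsupp.mapRange_single]

lemma mapF_zero {k1 k2 : Type*} [Field k1] [Field k2] (φ : k1 →+* k2) {Y : Type*} :
    mapF φ (0 : Y →₀ k1) = 0 := by
  ext q; simp [mapF]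

lemma mapF_act {k1 k2 : Type*} [Field k1] [Field k2] (φ : k1 →+* k2)
    (g : GL (Fin 2) K) (v : (OnePoint K × OnePoint K) →₀ k1) :
    mapF φ (act k1 g v) = act k2 g (mapF φ v) := by
  ext q
  obtain ⟨r, rfl⟩ := (pp g).surjective q
  simp only [mapF, act, Finsupp.lmapDomain_apply, Finsupp.mapRange_apply,
    Finsupp.mapDomain_apply (pp g).injective]

lemma mapF_triangle {k1 k2 : Type*} [Field k1] [Field k2] (φ : k1 →+* k2)
    (x y z : OnePoint K) : mapF φ (triangle k1 x y z) = triangle k2 x y z := by
  simp only [triangle, edge, mapF_add, mapF_sub, mapF_single, map_one]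

lemma mapF_mem_Sp {k1 k2 : Type*} [Field k1] [Field k2] (φ : k1 →+* k2)
    (v t : (OnePoint K × OnePoint K) →₀ k1) (h : t ∈ Sp k1 v) : mapF φ t ∈ Sp k2 (mapF φ v) := by
  rw [Sp] at h
  induction h using Submodule.span_induction with
  | mem x hx =>
    obtain ⟨g, rfl⟩ := hx
    rw [mapF_act]
    exact Submodule.subset_span ⟨g, rfl⟩
  | zero => rw [mapF_zero]; exact Submodule.zero_mem _
  | add x y _ _ hx hy => rw [mapF_add]; exact Submodule.add_mem _ hx hy
  | smul c x _ hx => rw [mapF_smul]; exact Submodule.smul_mem _ _ hx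

lemma mem_Sp_of_mapF {k1 k2 : Type*} [Field k1] [Field k2] (φ : k1 →+* k2)
    (v t : (OnePoint K × OnePoint K) →₀ k1) (h : mapF φ t ∈ Sp k2 (mapF φ v)) : t ∈ Sp k1 v := by
  by_contra hcon
  obtain ⟨f, hft, hf⟩ := Submodule.exists_le_ker_of_notMem hcon
  let f2 : ((OnePoint K × OnePoint K) →₀ k2) →ₗ[k2] k2 :=
    Finsupp.linearCombination k2 (fun q => φ (f (Finsupp.single q 1)))
  have hf2 : ∀ x : (OnePoint K × OnePoint K) →₀ k1, f2 (mapF φ x) = φ (f x) := by
    intro x
    induction x using Finsupp.induction_linear with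
    | zero => rw [mapF_zero, map_zero, map_zero, map_zero]
    | add x y hx hy => rw [mapF_add, map_add, map_add, map_add, hx, hy]
    | single q c =>
      rw [mapF_single]
      simp only [f2, Finsupp.linearCombination_single, smul_eq_mul]
      rw [← map_mul, ← smul_eq_mul, ← _root_.map_smul, Finsupp.smul_single, smul_eq_mul, mul_one]
  have h2 : Sp k2 (mapF φ v) ≤ LinearMap.ker f2 := by
    rw [Sp, Submodule.span_le]
    rintro _ ⟨g, rfl⟩
    change f2 (act k2 g (mapF φ v)) = 0
    rw [← mapF_act, hf2]
    have : act k1 g v ∈ LinearMap.ker f := hf (Submodule.subset_span ⟨g, rfl⟩)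
    rw [LinearMap.mem_ker.mp this, map_zero]
  have h3 := LinearMap.mem_ker.mp (h2 h)
  rw [hf2] at h3
  exact hft ((map_eq_zero φ).mp h3)

lemma act_act (k : Type*) [Field k] (g h : GL (Fin 2) K) (v : (OnePoint K × OnePoint K) →₀ k) :
    act k g (act k h v) = act k (g * h) v := by
  simp only [act, Finsupp.lmapDomain_apply, ← Finsupp.mapDomain_comp]
  congr 1
  funext q
  obtain ⟨x, y⟩ := q
  simp [pp, mul_smul]

lemma act_apply (k : Type*) [Field k] (g : GL (Fin 2) K) (v : (OnePoint K × OnePoint K) →₀ k)
    (x y : OnePoint K) : act k g v (x, y) = v (g⁻¹ • x, g⁻¹ • y) := by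
  have : (x, y) = pp g (g⁻¹ • x, g⁻¹ • y) := by
    simp [pp]
  conv_lhs => rw [this]
  rw [act, Finsupp.lmapDomain_apply, Finsupp.mapDomain_apply (pp g).injective]

lemma snd_act (k : Type*) [Field k] (g : GL (Fin 2) K) (v : (OnePoint K × OnePoint K) →₀ k)
    (h : Finsupp.mapDomain Prod.snd v = 0) : Finsupp.mapDomain Prod.snd (act k g v) = 0 := by
  rw [act, Finsupp.lmapDomain_apply, ← Finsupp.mapDomain_comp]
  have : (Prod.snd ∘ (pp g) : OnePoint K × OnePoint K → OnePoint K) = (fun x => g • x) ∘ Prod.snd :=
    rfl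
  rw [this, Finsupp.mapDomain_comp, h, Finsupp.mapDomain_zero]

/-- General coefficient fields of characteristic zero. -/
theorem general_case (p : ℕ) [Fact p.Prime] [Algebra (ZMod p) K]
    [Algebra.IsAlgebraic (ZMod p) K] [Infinite K]
    (k : Type u) [Field k] [CharZero k] (v : (OnePoint K × OnePoint K) →₀ k)
    (hanti : ∀ x y, v (x, y) = - v (y, x)) (hsum : Finsupp.mapDomain Prod.snd v = 0)
    (hv0 : v ≠ 0) :
    triangle k ((0 : K) : OnePoint K) ((1 : K) : OnePoint K) ∞ ∈ Sp k v := by
  classical
  let k0 : Subfield k := Subfield.closure (v.support.image v : Set k)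
  have hcount : Countable k0 := by
    rw [← Cardinal.mk_le_aleph0_iff]
    refine (Subfield.cardinalMk_closure_le_max _).trans ?_
    apply max_le _ le_rfl
    exact Cardinal.mk_le_aleph0_iff.mpr (Finset.countable_toSet _)
  obtain ⟨j⟩ := exists_ringHom_complex k0
  have hmem : ∀ q, v q ∈ k0 := by
    intro q
    by_cases hq : v q = 0
    · rw [hq]; exact k0.zero_mem
    · exact Subfield.subset_closure (Finset.mem_coe.mpr
        (Finset.mem_image.mpr ⟨q, Finsupp.mem_support_iff.mpr hq, rfl⟩))
  let v0 : (OnePoint K × OnePoint K) →₀ k0 :=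
    Finsupp.onFinset v.support (fun q => ⟨v q, hmem q⟩) (by
      intro q hq
      rw [Finsupp.mem_support_iff]
      intro h
      apply hq
      exact Subtype.ext h)
  have hv0v : mapF k0.subtype v0 = v := by
    ext q
    simp [mapF, v0]
  have hinj : Function.Injective (mapF (Y := OnePoint K) k0.subtype) :=
    Finsupp.mapRange_injective _ (map_zero _) k0.subtype.injective
  have hv0ne : v0 ≠ 0 := by
    intro h
    apply hv0
    rw [← hv0v, h, mapF_zero]
  have hanti0 : ∀ x y, v0 (x, y) = - v0 (y, x) := by
    intro x y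
    apply Subtype.ext
    exact hanti x y
  have hsum0 : Finsupp.mapDomain Prod.snd v0 = 0 := by
    apply hinj
    rw [mapF_zero, mapF, ← Finsupp.mapDomain_mapRange]
    · change Finsupp.mapDomain Prod.snd (mapF k0.subtype v0) = 0
      rw [hv0v, hsum]
    · intro a b
      exact map_add _ a b
  set w : (OnePoint K × OnePoint K) →₀ ℂ := mapF j v0 with hw
  have hwne : w ≠ 0 := by
    intro h
    apply hv0ne
    have hinj2 : Function.Injective (mapF (Y := OnePoint K × OnePoint K) j) :=
      Finsupp.mapRange_injective _ (map_zero _) j.injective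
    apply hinj2
    rw [← hw, h, mapF_zero]
  have hwanti : ∀ x y, w (x, y) = - w (y, x) := by
    intro x y
    simp only [hw, mapF, Finsupp.mapRange_apply]
    rw [hanti0, map_neg]
  have hwsum : Finsupp.mapDomain Prod.snd w = 0 := by
    rw [hw, mapF, Finsupp.mapDomain_mapRange, hsum0, Finsupp.mapRange_zero]
    intro a b
    exact map_add _ a b
  have key : triangle ℂ ((0 : K) : OnePoint K) ((1 : K) : OnePoint K) ∞ ∈ Sp ℂ w := by
    apply complex_case p (Sp ℂ w) _ _ _ w _ hwne
    · intro g f hf
      rw [Sp] at hf ⊢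
      induction hf using Submodule.span_induction with
      | mem x hx =>
        obtain ⟨h, rfl⟩ := hx
        simp only [act_act]
        exact Submodule.subset_span ⟨g * h, rfl⟩
      | zero => rw [map_zero]; exact Submodule.zero_mem _
      | add x y _ _ hx hy => rw [map_add]; exact Submodule.add_mem _ hx hy
      | smul c x _ hx => rw [_root_.map_smul]; exact Submodule.smul_mem _ _ hx
    · intro f hf
      rw [Sp] at hf
      induction hf using Submodule.span_induction with
      | mem x hx =>
        obtain ⟨h, rfl⟩ := hx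
        intro x y
        simp only [act_apply]
        exact hwanti _ _
      | zero => intro x y; simp
      | add x y _ _ hx hy =>
        intro a b
        simp only [Finsupp.add_apply]
        rw [hx, hy]
        ring
      | smul c x _ hx =>
        intro a b
        simp only [Finsupp.smul_apply, smul_eq_mul]
        rw [hx]
        ring
    · intro f hf
      rw [Sp] at hf
      induction hf using Submodule.span_induction with
      | mem x hx =>
        obtain ⟨h, rfl⟩ := hx
        exact snd_act ℂ h w hwsum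
      | zero => simp
      | add x y _ _ hx hy => rw [Finsupp.mapDomain_add, hx, hy, add_zero]
      | smul c x _ hx => rw [Finsupp.mapDomain_smul, hx, smul_zero]
    · have : act ℂ (1 : GL (Fin 2) K) w = w := by
        ext ⟨x, y⟩
        rw [act_apply]
        simp
      rw [Sp]
      exact Submodule.subset_span ⟨1, this⟩
  rw [← mapF_triangle j] at key
  have key2 := mem_Sp_of_mapF j v0 _ key
  have key3 := mapF_mem_Sp k0.subtype v0 _ key2
  rw [mapF_triangle, hv0v] at key3
  exact key3

end

end Pool.Agent.Work.MP_79d1ba_al
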