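import Mathlib
import Pool.Agent.Work.MP_79d1ba_al.Defs
import Pool.Agent.Work.MP_79d1ba_al.Descent

/-!
Comparison of the abstract definitions with the concrete model, and the simplicity of `V_-`.
-/

set_option autoImplicit false

open scoped TensorProduct MatrixGroups Matrix
open Matrix OnePoint

namespace Pool.Agent.Work.MP_79d1ba_al

section Proof

variable {k K : Type*} [Field k] [Field K] [DecidableEq K]

/-- the action of `SL₂` on the projective line -/
def mo (g : SL(2, K)) (x : OnePoint K) : OnePoint K := (SpecialLinearGroup.toGL g) • x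

lemma mo_mul (g h : SL(2, K)) (x : OnePoint K) : mo (g * h) x = mo g (mo h x) := by
  simp only [mo, map_mul, mul_smul]

lemma mo_one (x : OnePoint K) : mo (1 : SL(2, K)) x = x := by
  simp only [mo, map_one, one_smul]

lemma mo_inj (g : SL(2, K)) : Function.Injective (mo g) := MulAction.injective _

lemma mo_infty (g : SL(2, K)) : mo g ∞ = ∞ ↔ g.val 1 0 = 0 := by
  rw [mo, OnePoint.smul_infty_eq_self_iff]
  rfl

lemma exists_mo (x : OnePoint K) : ∃ g : SL(2, K), mo g ∞ = x := by
  cases x with
  | infty => exact ⟨1, mo_one _⟩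
  | coe x =>
    refine ⟨eps K x * sMat K, ?_⟩
    rw [mo_mul]
    have h1 : mo (sMat K) ∞ = ((0 : K) : OnePoint K) := by
      rw [mo, OnePoint.smul_infty_eq_ite]
      simp [sMat, SpecialLinearGroup.toGL]
    rw [h1, mo, OnePoint.smul_some_eq_ite]
    simp [eps, SpecialLinearGroup.toGL]

/-- the comparison map `kG → k[ℙ¹]` -/
noncomputable def JG : GrpAlg k K →ₗ[k] (OnePoint K →₀ k) :=
  Finsupp.lmapDomain k k (fun h : SL(2, K) => mo h ∞)

lemma JG_ofG (g : SL(2, K)) : JG (ofG k K g) = Finsupp.single (mo g ∞) 1 := by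
  have : Finsupp.mapDomain (fun h : SL(2, K) => mo h ∞) (Finsupp.single g (1 : k)) =
      Finsupp.single (mo g ∞) 1 := Finsupp.mapDomain_single
  exact this

/-- the comparison map `𝕄(tr) → k[ℙ¹]` -/
noncomputable def J : IndTr k K →ₗ[k] (OnePoint K →₀ k) :=
  (relB k K).liftQ JG (by
    rw [relB, Submodule.span_le]
    rintro _ ⟨g, b, hb, rfl⟩
    rw [SetLike.mem_coe, LinearMap.mem_ker, map_sub, JG_ofG, JG_ofG, mo_mul,
      (mo_infty b).mpr hb, sub_self])

/-- generators of the induced module -/
noncomputable def mkTr (h : SL(2, K)) : IndTr k K := (relB k K).mkQ (ofG k K h)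

lemma J_mk (h : SL(2, K)) : J (mkTr h : IndTr k K) = Finsupp.single (mo h ∞) 1 := JG_ofG h

omit [DecidableEq K] in
lemma ind_ext {W : Type*} [AddCommGroup W] [Module k W] {f g : IndTr k K →ₗ[k] W}
    (h : ∀ x : SL(2, K), f (mkTr x) = g (mkTr x)) : f = g := by
  have key0 : ∀ f g : (SL(2, K) →₀ k) →ₗ[k] W,
      (∀ x, f (Finsupp.single x 1) = g (Finsupp.single x 1)) → f = g := by
    intro f g h
    apply Finsupp.lhom_ext'
    intro x
    apply LinearMap.ext_ring
    exact h x
  have key : f ∘ₗ (relB k K).mkQ = g ∘ₗ (relB k K).mkQ := key0 _ _ h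
  apply LinearMap.ext
  intro m
  obtain ⟨f', rfl⟩ := (relB k K).mkQ_surjective m
  exact LinearMap.congr_fun key f'

omit [DecidableEq K] in
lemma indTr_mk (g h : SL(2, K)) : actTr k K g (mkTr h) = mkTr (g * h) :=
  congrArg (relB k K).mkQ (lmul_ofG k K g h)

lemma J_act (g : SL(2, K)) (m : IndTr k K) :
    J (actTr k K g m) = Finsupp.lmapDomain k k (mo g) (J m) := by
  have : (J ∘ₗ (actTr k K g) : IndTr k K →ₗ[k] _) = (Finsupp.lmapDomain k k (mo g)) ∘ₗ J := by
    apply ind_ext
    intro h
    rw [LinearMap.comp_apply, LinearMap.comp_apply, indTr_mk, J_mk, J_mk,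
      Finsupp.lmapDomain_apply, Finsupp.mapDomain_single, mo_mul]
  exact LinearMap.congr_fun this m

/-- a left inverse of `J` -/
noncomputable def Jinv : (OnePoint K →₀ k) →ₗ[k] IndTr k K :=
  Finsupp.linearCombination k (fun x => mkTr (Classical.choose (exists_mo x)))

omit [DecidableEq K] in
lemma mk_borel_mul (g b : SL(2, K)) (hb : b.val 1 0 = 0) :
    (mkTr (g * b) : IndTr k K) = mkTr g := by
  exact (Submodule.Quotient.eq (relB k K)).mpr (Submodule.subset_span ⟨g, b, hb, rfl⟩)

lemma Jinv_J (m : IndTr k K) : Jinv (J m) = m := by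
  have : (Jinv ∘ₗ J : IndTr k K →ₗ[k] _) = LinearMap.id := by
    apply ind_ext
    intro h
    rw [LinearMap.comp_apply, LinearMap.id_apply, J_mk, Jinv, Finsupp.linearCombination_single,
      one_smul]
    have hc := Classical.choose_spec (exists_mo (mo h (∞ : OnePoint K)))
    set c := Classical.choose (exists_mo (mo h (∞ : OnePoint K))) with hc'
    have hb : (h⁻¹ * c).val 1 0 = 0 := by
      rw [← mo_infty, mo_mul, hc, ← mo_mul, inv_mul_cancel, mo_one]
    have : c = h * (h⁻¹ * c) := by group
    rw [this]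
    exact mk_borel_mul _ _ hb
  exact LinearMap.congr_fun this m

lemma J_injective : Function.Injective (J : IndTr k K →ₗ[k] _) :=
  Function.LeftInverse.injective Jinv_J

lemma J_one : J (oneTr k K) = Finsupp.single ∞ 1 := by
  change J (mkTr 1) = _
  rw [J_mk, mo_one]

lemma mo_s_infty : mo (sMat K) ∞ = ((0 : K) : OnePoint K) := by
  rw [mo, OnePoint.smul_infty_eq_ite]
  simp [sMat, SpecialLinearGroup.toGL]

lemma mo_eps_infty (x : K) : mo (eps K x) ∞ = ∞ := by
  rw [mo, OnePoint.smul_infty_eq_ite]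
  simp [eps, SpecialLinearGroup.toGL]

lemma mo_eps_coe (x y : K) : mo (eps K x) (y : OnePoint K) = ((y + x : K) : OnePoint K) := by
  rw [mo, OnePoint.smul_some_eq_ite]
  simp [eps, SpecialLinearGroup.toGL]

lemma J_eta : J (eta k K) = Finsupp.single ∞ 1 - Finsupp.single ((0 : K) : OnePoint K) 1 := by
  rw [eta, map_sub, J_act, J_one, Finsupp.lmapDomain_apply, Finsupp.mapDomain_single, mo_s_infty]

/-- the comparison map restricted to the Steinberg module -/
noncomputable def JS : St k K →ₗ[k] (OnePoint K →₀ k) :=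
  J ∘ₗ (StSub k K).subtype

lemma JS_injective : Function.Injective (JS : St k K →ₗ[k] _) :=
  J_injective.comp (Submodule.injective_subtype (StSub k K))

lemma JS_act (g : SL(2, K)) (m : St k K) :
    JS (actSt k K g m) = Finsupp.lmapDomain k k (mo g) (JS m) := by
  exact J_act g m.1

lemma JS_e (x : K) : JS (eSt k K x) =
    Finsupp.single ∞ 1 - Finsupp.single (x : OnePoint K) 1 := by
  change J (actTr k K (eps K x) (eta k K)) = _
  rw [J_act, J_eta, Finsupp.lmapDomain_apply, sub_eq_add_neg, Finsupp.mapDomain_add,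
    ← Finsupp.single_neg, Finsupp.mapDomain_single, Finsupp.mapDomain_single, mo_eps_infty,
    mo_eps_coe, zero_add, Finsupp.single_neg, ← sub_eq_add_neg]

/-- the comparison map on `St ⊗ St` -/
noncomputable def JJ0 : (St k K ⊗[k] St k K) →ₗ[k] ((OnePoint K × OnePoint K) →₀ k) :=
  (finsuppTensorFinsupp' k (OnePoint K) (OnePoint K)).toLinearMap ∘ₗ (TensorProduct.map JS JS)

/-- the comparison map on `St ⊗ St` -/
noncomputable def JJ : StSt k K →ₗ[k] ((OnePoint K × OnePoint K) →₀ k) := JJ0

lemma JJ_tmul' (x y : St k K) : JJ0 (x ⊗ₜ[k] y) =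
    finsuppTensorFinsupp' k (OnePoint K) (OnePoint K) (JS x ⊗ₜ[k] JS y) := by
  rw [JJ0, LinearMap.comp_apply, TensorProduct.map_tmul]
  rfl

lemma JJ0_injective : Function.Injective
    (JJ0 : (St k K ⊗[k] St k K) →ₗ[k] _) := by
  rw [JJ0, LinearMap.coe_comp]
  apply Function.Injective.comp
  · exact LinearEquiv.injective _
  · exact TensorProduct.map_injective_of_flat_flat _ _ JS_injective JS_injective

lemma JJ_injective : Function.Injective (JJ : StSt k K →ₗ[k] _) := JJ0_injective

lemma JJ0_act (g : SL(2, K)) (m : St k K ⊗[k] St k K) :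
    JJ0 (TensorProduct.map (actSt k K g) (actSt k K g) m) =
      act k (SpecialLinearGroup.toGL g) (JJ0 m) := by
  induction m using TensorProduct.induction_on with
  | zero => simp only [map_zero]
  | add x y hx hy => simp only [map_add, hx, hy]
  | tmul x y =>
    have h1 : ∀ a b : OnePoint K →₀ k,
        finsuppTensorFinsupp' k (OnePoint K) (OnePoint K)
          ((Finsupp.lmapDomain k k (mo g) a) ⊗ₜ[k] (Finsupp.lmapDomain k k (mo g) b)) =
        act k (SpecialLinearGroup.toGL g)
          (finsuppTensorFinsupp' k (OnePoint K) (OnePoint K) (a ⊗ₜ[k] b)) := by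
      intro a b
      induction a using Finsupp.induction_linear with
      | zero => simp only [map_zero, TensorProduct.zero_tmul]
      | add a a' ha ha' => simp only [map_add, TensorProduct.add_tmul, ha, ha']
      | single q c =>
        induction b using Finsupp.induction_linear with
        | zero => simp only [map_zero, TensorProduct.tmul_zero]
        | add a a' ha ha' => simp only [map_add, TensorProduct.tmul_add, ha, ha']
        | single r d =>
          simp only [Finsupp.lmapDomain_apply, Finsupp.mapDomain_single,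
            finsuppTensorFinsupp'_single_tmul_single, act]
          rfl
    rw [TensorProduct.map_tmul, JJ_tmul', JJ_tmul', JS_act, JS_act]
    exact h1 _ _

lemma JJ_act (g : SL(2, K)) (m : StSt k K) :
    JJ (actStSt k K g m) = act k (SpecialLinearGroup.toGL g) (JJ m) := JJ0_act g m

lemma JJ_tmul (x y : K) : JJ0 (eSt k K x ⊗ₜ[k] eSt k K y) =
    Finsupp.single (∞, ∞) 1 - Finsupp.single (∞, (y : OnePoint K)) 1
      - Finsupp.single ((x : OnePoint K), ∞) 1 +
      Finsupp.single ((x : OnePoint K), (y : OnePoint K)) 1 := by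
  rw [JJ_tmul', JS_e, JS_e, TensorProduct.sub_tmul, TensorProduct.tmul_sub,
    TensorProduct.tmul_sub]
  simp only [map_sub, finsuppTensorFinsupp'_single_tmul_single, mul_one]
  abel

lemma JJ_rho (x y : K) : JJ (rho k K x y) = (1 / 2 : k) • triangle k (x : OnePoint K) y ∞ := by
  change JJ0 ((1 / 2 : k) • (eSt k K x ⊗ₜ[k] eSt k K y - eSt k K y ⊗ₜ[k] eSt k K x)) = _
  rw [_root_.map_smul, map_sub, JJ_tmul, JJ_tmul, triangle, edge, edge, edge]
  congr 1
  abel

lemma act_triangle (g : GL (Fin 2) K) (a b c : OnePoint K) :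
    act k g (triangle k a b c) = triangle k (g • a) (g • b) (g • c) := by
  simp only [triangle, edge, act, Finsupp.lmapDomain_apply, map_add, map_sub]
  have h : ∀ x y : OnePoint K, Finsupp.mapDomain (pp g) (Finsupp.single (x, y) (1 : k)) =
      Finsupp.single (g • x, g • y) 1 := by
    intro x y
    rw [Finsupp.mapDomain_single]
    rfl
  simp only [h]

lemma triangle_split (a b c : OnePoint K) :
    triangle k a b c = triangle k a b ∞ + triangle k b c ∞ + triangle k c a ∞ := by
  simp only [triangle, edge]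
  abel

lemma triangle_mem [CharZero k] (a b : OnePoint K) :
    triangle k a b ∞ ∈ (Vminus k K).map JJ := by
  have hz : ∀ x : OnePoint K, triangle k x x ∞ = 0 := by
    intro x
    simp only [triangle, edge]
    abel
  have hz1 : ∀ x : OnePoint K, triangle k x ∞ ∞ = 0 := by
    intro x
    simp only [triangle, edge]
    abel
  have hz2 : ∀ x : OnePoint K, triangle k ∞ x ∞ = 0 := by
    intro x
    simp only [triangle, edge]
    abel
  by_cases hab : a = b
  · rw [hab, hz]; exact Submodule.zero_mem _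
  cases a with
  | infty => rw [hz2]; exact Submodule.zero_mem _
  | coe a =>
    cases b with
    | infty => rw [hz1]; exact Submodule.zero_mem _
    | coe b =>
      have hne : a ≠ b := fun h => hab (by rw [h])
      refine ⟨(2 : k) • rho k K a b, ?_, ?_⟩
      · exact Submodule.smul_mem _ _ (Submodule.subset_span ⟨a, b, hne, rfl⟩)
      · rw [_root_.map_smul, JJ_rho, smul_smul]
        norm_num

lemma triangle_mem' [CharZero k] (a b c : OnePoint K) :
    triangle k a b c ∈ (Vminus k K).map JJ := by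
  rw [triangle_split]
  exact Submodule.add_mem _ (Submodule.add_mem _ (triangle_mem _ _) (triangle_mem _ _))
    (triangle_mem _ _)

lemma Vminus_stable [CharZero k] (g : SL(2, K)) {v : StSt k K}
    (hv : v ∈ Vminus k K) : actStSt k K g v ∈ Vminus k K := by
  rw [Vminus] at hv
  induction hv using Submodule.span_induction with
  | mem x hx =>
    obtain ⟨a, b, hab, rfl⟩ := hx
    have h1 : JJ (actStSt k K g (rho k K a b)) ∈ (Vminus k K).map JJ := by
      rw [JJ_act, JJ_rho, _root_.map_smul, act_triangle]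
      exact Submodule.smul_mem _ _ (triangle_mem' _ _ _)
    obtain ⟨w, hw, hw2⟩ := h1
    rw [← JJ_injective hw2]
    exact hw
  | zero => rw [map_zero]; exact Submodule.zero_mem _
  | add x y _ _ hx hy => rw [map_add]; exact Submodule.add_mem _ hx hy
  | smul c x _ hx => rw [_root_.map_smul]; exact Submodule.smul_mem _ _ hx

lemma triangle_apply_ne (k : Type*) [Field k] [CharZero k] :
    triangle k ((0 : K) : OnePoint K) ((1 : K) : OnePoint K) ∞ ≠ 0 := by
  intro h
  have h1 := DFunLike.congr_fun h (((0 : K) : OnePoint K), ((1 : K) : OnePoint K))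
  have e1 : ((0 : K) : OnePoint K) ≠ ((1 : K) : OnePoint K) := by
    intro h
    exact zero_ne_one (OnePoint.coe_eq_coe.mp h)
  simp [triangle, edge, e1, e1.symm] at h1

lemma exists_sl [IsAlgClosed K] (g : GL (Fin 2) K) :
    ∃ g' : SL(2, K), ∀ x : OnePoint K, SpecialLinearGroup.toGL g' • x = g • x := by
  obtain ⟨c, hc⟩ := IsAlgClosed.exists_pow_nat_eq (g.val.det) (n := 2) (by norm_num)
  have hdet : g.val.det ≠ 0 := g.det_ne_zero
  have hc0 : c ≠ 0 := by
    rintro rfl
    apply hdet
    rw [← hc]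
    simp
  let g' : SL(2, K) := ⟨c⁻¹ • g.val, by
    rw [Matrix.det_smul, Fintype.card_fin, ← hc]
    field_simp⟩
  have e : ∀ i j, (SpecialLinearGroup.toGL g') i j = c⁻¹ * g i j := fun i j => rfl
  refine ⟨g', fun x => ?_⟩
  cases x with
  | infty =>
    rw [OnePoint.smul_infty_eq_ite, OnePoint.smul_infty_eq_ite, e, e]
    by_cases h : g 1 0 = 0
    · rw [if_pos h, if_pos (by rw [h, mul_zero])]
    · rw [if_neg h, if_neg (mul_ne_zero (inv_ne_zero hc0) h), OnePoint.coe_eq_coe]
      field_simp
  | coe x =>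
    rw [OnePoint.smul_some_eq_ite, OnePoint.smul_some_eq_ite, e, e, e, e]
    have h2 : c⁻¹ * g 1 0 * x + c⁻¹ * g 1 1 = c⁻¹ * (g 1 0 * x + g 1 1) := by ring
    by_cases h : g 1 0 * x + g 1 1 = 0
    · rw [if_pos h, if_pos (by rw [h2, h, mul_zero])]
    · rw [if_neg h, h2, if_neg (mul_ne_zero (inv_ne_zero hc0) h), OnePoint.coe_eq_coe]
      have h3 : c⁻¹ * g 0 0 * x + c⁻¹ * g 0 1 = c⁻¹ * (g 0 0 * x + g 0 1) := by ring
      rw [h3, mul_div_mul_left _ _ (inv_ne_zero hc0)]

lemma act_congr {g h : GL (Fin 2) K} (hgh : ∀ x : OnePoint K, g • x = h • x)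
    (v : (OnePoint K × OnePoint K) →₀ k) : act k g v = act k h v := by
  rw [act, act]
  congr 2
  ext q
  · exact hgh _
  · exact hgh _

/-- properties of the vectors in the image of `V_-` -/
lemma JJ_Vminus_props {v : StSt k K}
    (hv : v ∈ Vminus k K) :
    (∀ x y, JJ v (x, y) = - JJ v (y, x)) ∧ Finsupp.mapDomain Prod.snd (JJ v) = 0 := by
  rw [Vminus] at hv
  induction hv using Submodule.span_induction with
  | mem x hx =>
    obtain ⟨a, b, hab, rfl⟩ := hx
    rw [JJ_rho]
    constructor
    · intro x y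
      simp only [triangle, edge, Finsupp.smul_apply, Finsupp.add_apply, Finsupp.sub_apply,
        Finsupp.single_apply, Prod.mk.injEq]
      simp only [and_comm]
      ring
    · rw [Finsupp.mapDomain_smul]
      have : Finsupp.mapDomain Prod.snd (triangle k (a : OnePoint K) (b : OnePoint K) ∞) = 0 := by
        change Finsupp.lmapDomain k k Prod.snd (triangle k (a : OnePoint K) (b : OnePoint K) ∞) = 0
        simp only [triangle, edge, map_add, map_sub, Finsupp.lmapDomain_apply,
          Finsupp.mapDomain_single]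
        abel
      rw [this, smul_zero]
  | zero => simp
  | add x y _ _ hx hy =>
    constructor
    · intro a b
      rw [map_add, Finsupp.add_apply, Finsupp.add_apply, hx.1 a b, hy.1 a b]
      ring
    · rw [map_add, Finsupp.mapDomain_add, hx.2, hy.2, add_zero]
  | smul c x _ hx =>
    constructor
    · intro a b
      rw [_root_.map_smul, Finsupp.smul_apply, Finsupp.smul_apply, hx.1 a b, smul_neg]
    · rw [_root_.map_smul, Finsupp.mapDomain_smul, hx.2, smul_zero]

/-- the core statement: any nonzero invariant subspace of `V_-` is everything. -/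
lemma core (p : ℕ) [Fact p.Prime] [Algebra (ZMod p) K] [IsAlgClosure (ZMod p) K] [CharZero k]
    (W : Submodule k (StSt k K))
    (hW : W ≤ Vminus k K) (hinv : ∀ g : SL(2, K), ∀ w ∈ W, actStSt k K g w ∈ W) (hW0 : W ≠ ⊥) :
    W = Vminus k K := by
  have : IsAlgClosed K := IsAlgClosure.isAlgClosed (ZMod p)
  have : Algebra.IsAlgebraic (ZMod p) K := IsAlgClosure.isAlgebraic
  have : Infinite K := IsAlgClosed.instInfinite
  obtain ⟨w, hwW, hw0⟩ := Submodule.exists_mem_ne_zero_of_ne_bot hW0
  obtain ⟨h1, h2⟩ := JJ_Vminus_props (hW hwW)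
  have h3 : JJ w ≠ 0 := by
    intro h
    apply hw0
    apply JJ_injective
    rw [h, map_zero]
  have h4 := general_case p k (JJ w) h1 h2 h3
  have hSp : Sp k (JJ w) ≤ W.map JJ := by
    rw [Sp, Submodule.span_le]
    rintro _ ⟨g, rfl⟩
    obtain ⟨g', hg'⟩ := exists_sl g
    refine ⟨actStSt k K g' w, hinv _ _ hwW, ?_⟩
    rw [JJ_act]
    exact act_congr hg' _
  have h5 : ∀ g : GL (Fin 2) K, ∀ v ∈ W.map JJ, act k g v ∈ W.map JJ := by
    rintro g _ ⟨v, hv, rfl⟩
    obtain ⟨g', hg'⟩ := exists_sl g
    refine ⟨actStSt k K g' v, hinv _ _ hv, ?_⟩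
    rw [JJ_act]
    exact act_congr hg' _
  apply le_antisymm hW
  rw [Vminus, Submodule.span_le]
  rintro _ ⟨x, y, hxy, rfl⟩
  have hxy' : y - x ≠ 0 := sub_ne_zero.mpr (Ne.symm hxy)
  let g : GL (Fin 2) K := GeneralLinearGroup.mkOfDetNeZero !![y - x, x; 0, 1]
    (by simp [det_fin_two, hxy'])
  have h6 := h5 g _ (hSp h4)
  rw [act_triangle] at h6
  have e0 : g • ((0 : K) : OnePoint K) = (x : OnePoint K) := by
    rw [OnePoint.smul_some_eq_ite]
    simp [g, GeneralLinearGroup.mkOfDetNeZero]
  have e1 : g • ((1 : K) : OnePoint K) = (y : OnePoint K) := by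
    rw [OnePoint.smul_some_eq_ite]
    simp [g, GeneralLinearGroup.mkOfDetNeZero]
  have e2 : g • (∞ : OnePoint K) = ∞ := by
    rw [OnePoint.smul_infty_eq_ite]
    simp [g, GeneralLinearGroup.mkOfDetNeZero]
  rw [e0, e1, e2] at h6
  have h7 : JJ (rho k K x y) ∈ W.map JJ := by
    rw [JJ_rho]
    exact Submodule.smul_mem _ _ h6
  obtain ⟨w', hw', hw''⟩ := h7
  rw [← JJ_injective hw'']
  exact hw'

end Proof

section Final

variable {k K : Type*} [Field k] [Field K]

/-- the final statement -/
theorem final (p : ℕ) [Fact p.Prime] [Algebra (ZMod p) K]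
    [IsAlgClosure (ZMod p) K] [CharZero k] :
    (∀ g : SL(2, K), ∀ v ∈ Vminus k K, actStSt k K g v ∈ Vminus k K) ∧ Vminus k K ≠ ⊥ ∧
    ∀ W : Submodule k (StSt k K), W ≤ Vminus k K →
      (∀ g : SL(2, K), ∀ w ∈ W, actStSt k K g w ∈ W) → W = ⊥ ∨ W = Vminus k K := by
  classical
  refine ⟨fun g v hv => Vminus_stable g hv, ?_, ?_⟩
  · intro h
    have h1 : triangle k ((0 : K) : OnePoint K)
        ((1 : K) : OnePoint K) ∞ ∈ (Vminus k K).map JJ := triangle_mem _ _
    rw [h, Submodule.map_bot, Submodule.mem_bot] at h1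
    exact triangle_apply_ne k h1
  · intro W hW hinv
    by_cases hW0 : W = ⊥
    · exact Or.inl hW0
    · exact Or.inr (core p W hW hinv hW0)

end Final

end Pool.Agent.Work.MP_79d1ba_al
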